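import Pool.Agent.U963.JN.Words

/-!
# The computations modulo 11
-/

set_option autoImplicit false

namespace Pool.Agent.U963.JN

open Pool.Agent.Y463.SK

/-- the matrices of a word and of its inverse -/
def pr (w : List (Bool × ℕ)) : List (V ℕ) × List (V ℕ) := (matN 11 3 4 8 w, matN 11 3 4 8 (invL w))

/-- the matrices of the commutator and of its inverse -/
def cmN (X Y : List (V ℕ) × List (V ℕ)) : List (V ℕ) × List (V ℕ) :=
  (mulN 11 (mulN 11 (mulN 11 X.1 Y.1) X.2) Y.2, mulN 11 (mulN 11 (mulN 11 Y.1 X.1) Y.2) X.2)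

/-- equality test -/
def eqP (X Y : List (V ℕ) × List (V ℕ)) : Bool := eqM X.1 Y.1 && eqM X.2 Y.2

def p0 : List (V ℕ) × List (V ℕ) := cmN (pr g5) (cmN (pr g2) (pr g3))
def p1 : List (V ℕ) × List (V ℕ) := cmN (pr hh) (cmN (pr zz) p0)
def p2 : List (V ℕ) × List (V ℕ) := cmN (pr hh) (cmN (pr zz) p1)

/-- the closure of `w σ_1 σ_2 σ_3` -/
def clN (X : List (V ℕ)) : ℕ :=
  let v := runN 11 3 4 8 [(true, 0), (true, 1), (true, 2)] (X.getD 0 zeroN)
  (v.a0 * 8^4 + (v.a1 + v.a2 + v.a3) * 8^3 + (v.a4 + v.a5 + v.a6 + v.a7 + v.a8 + v.a13) * 8^2 + 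
    (v.a9 + v.a10 + v.a11 + v.a12) * 8) % 11

set_option maxRecDepth 100000

theorem chk2 : eqM (powM 11 (matN 11 3 4 8 g2) 5) idN = true := by decide +kernel
theorem chk3 : eqM (powM 11 (matN 11 3 4 8 g3) 10) idN = true := by decide +kernel
theorem chk5 : eqM (powM 11 (matN 11 3 4 8 g5) 19) idN = true := by decide +kernel


theorem chk6 : eqP (cmN (pr hh) (cmN (pr zz) p2)) p2 = true := by decide +kernel

theorem chk7 : (clN p0.1, clN p1.1, clN p2.1) = (10, 3, 7) := by decide +kernel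

end Pool.Agent.U963.JN
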