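import Pool.Agent.U963.JN.Mat
import Pool.Agent.N569.TW.Main

/-!
# The bracket of the closure of a braid on four strands
-/

set_option autoImplicit false

namespace Pool.Agent.U963.JN

open Finset LaurentPolynomial Pool.Agent.H891R2.Jones Pool.Agent.W639.RB Pool.Agent.TH561 Pool.Agent.Y463.SK

/-- the closure functional, multiplied by the loop value -/
def tau {R : Type*} [CommRing R] (d : R) (v : V R) : R :=
  v.a0 * d^4 + (v.a1 + v.a2 + v.a3) * d^3 + (v.a4 + v.a5 + v.a6 + v.a7 + v.a8 + v.a13) * d^2 + 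
    (v.a9 + v.a10 + v.a11 + v.a12) * d

theorem tau_map {R S : Type*} [CommRing R] [CommRing S] (f : R →+* S) (d : R) (v : V R) : 
    f (tau d v) = tau (f d) (v.map f) := by
  simp [tau, V.map]

theorem isTLr_KK (m N : ℕ) : IsTLr m (N : ℂ) (KK m N) where
  sq := (isTL_KK m N).sq
  up := (isTL_KK m N).up
  down := (isTL_KK m N).down
  far := (isTL_KK m N).far

theorem MR_wd (A : ℂ) (m N : ℕ) (W : List (Bool × ℕ)) : MR A m N W = wd A A⁻¹ (KK m N) W := by
  unfold MR wd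
  congr 1
  apply List.map_congr_left
  rintro ⟨b, i⟩ _
  cases b <;> simp [ML, sgn, ltr]

variable {N : ℕ}

theorem tr1 : Matrix.trace (1 : Matrix (Fin 4 → Fin N) (Fin 4 → Fin N) ℂ) = (N : ℂ)^4 := by
  rw [Matrix.trace_one]; simp

theorem trv (hN : N ≠ 0) (v : V ℂ) : Matrix.trace (val (KK 4 N) v) = tau (N : ℂ) v := by
  have hN' : (N : ℂ) ≠ 0 := by exact_mod_cast hN
  have hsq : KK 4 N 1 * KK 4 N 1 = (N : ℂ) • KK 4 N 1 := (isTLr_KK 4 N).sq 1 (by omega)
  have m0 := markov (m := 4) hN 0 [] (by omega) (by simp)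
  have m1 := markov (m := 4) hN 1 [] (by omega) (by simp)
  have m2 := markov (m := 4) hN 2 [] (by omega) (by simp)
  have m01 := markov (m := 4) hN 1 [0] (by omega) (by simp)
  have m12 := markov (m := 4) hN 2 [1] (by omega) (by simp)
  have m02 := markov (m := 4) hN 2 [0] (by omega) (by simp)
  have m012 := markov (m := 4) hN 2 [0, 1] (by omega) (by simp)
  have m102 := markov (m := 4) hN 2 [1, 0] (by omega) (by simp)
  simp only [WP_cons, WP_nil, one_mul, mul_one] at m0 m1 m2 m01 m12 m02 m012 m102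
  rw [tr1] at m0 m1 m2
  have t0 : Matrix.trace (KK 4 N 0) = (N : ℂ)^3 := mul_left_cancel₀ hN' (by rw [m0]; ring)
  have t1 : Matrix.trace (KK 4 N 1) = (N : ℂ)^3 := mul_left_cancel₀ hN' (by rw [m1]; ring)
  have t2 : Matrix.trace (KK 4 N 2) = (N : ℂ)^3 := mul_left_cancel₀ hN' (by rw [m2]; ring)
  rw [t0] at m01 m02
  rw [t1] at m12
  have t01 : Matrix.trace (KK 4 N 0 * KK 4 N 1) = (N : ℂ)^2 := mul_left_cancel₀ hN' (by rw [m01]; ring)
  have t12 : Matrix.trace (KK 4 N 1 * KK 4 N 2) = (N : ℂ)^2 := mul_left_cancel₀ hN' (by rw [m12]; ring)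
  have t02 : Matrix.trace (KK 4 N 0 * KK 4 N 2) = (N : ℂ)^2 := mul_left_cancel₀ hN' (by rw [m02]; ring)
  have t10 : Matrix.trace (KK 4 N 1 * KK 4 N 0) = (N : ℂ)^2 := by rw [Matrix.trace_mul_comm, t01]
  have t21 : Matrix.trace (KK 4 N 2 * KK 4 N 1) = (N : ℂ)^2 := by rw [Matrix.trace_mul_comm, t12]
  rw [t01] at m012
  rw [t10] at m102
  have t012 : Matrix.trace (KK 4 N 0 * KK 4 N 1 * KK 4 N 2) = (N : ℂ) := 
    mul_left_cancel₀ hN' (by rw [m012]; ring)
  have t102 : Matrix.trace (KK 4 N 1 * KK 4 N 0 * KK 4 N 2) = (N : ℂ) := 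
    mul_left_cancel₀ hN' (by rw [m102]; ring)
  have t210 : Matrix.trace (KK 4 N 2 * KK 4 N 1 * KK 4 N 0) = (N : ℂ) := by 
    rw [mul_assoc, Matrix.trace_mul_comm, t102]
  have t021 : Matrix.trace (KK 4 N 0 * KK 4 N 2 * KK 4 N 1) = (N : ℂ) := by 
    rw [Matrix.trace_mul_comm, ← mul_assoc, t102]
  have t1021 : Matrix.trace (KK 4 N 1 * KK 4 N 0 * KK 4 N 2 * KK 4 N 1) = (N : ℂ)^2 := by 
    rw [Matrix.trace_mul_comm, ← mul_assoc, ← mul_assoc, hsq, smul_mul_assoc, smul_mul_assoc, 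
      Matrix.trace_smul, t102, smul_eq_mul]
    ring
  unfold val
  simp only [Matrix.trace_add, Matrix.trace_smul, t0, t1, t2, t01, t12, t02, t10, t21, t012, t102, t210,
    t021, t1021, tr1, smul_eq_mul]
  unfold tau
  ring

theorem bracket_clo (W : List (Bool × ℕ)) (hW : ∀ x ∈ W, x.2 + 1 < 4) :
    dl * (draw (braidClosure 4) W).close.bracket = tau dl (run (T 1) (T (-1)) dl W (one _)) := by
  apply eq_of_ev
  intro N hN
  have hN0 : N ≠ 0 := by omega
  rw [Pool.Agent.N569.TW.ev_bracket_trace (by omega) W hW N hN, MR_wd, tau_map, map_run, ev_dl]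
  have h1 : (one ℤ[T;T⁻¹]).map (ev N hN) = one ℂ := by simp [one, V.map]
  have h2 := val_run (A := Ar N) (A' := (Ar N)⁻¹) (isTLr_KK 4 N) W (one ℂ) hW
  rw [val_one, one_mul] at h2
  rw [h1, ← h2, trv hN0, ev_T, ev_T]
  simp

end Pool.Agent.U963.JN
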