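import Pool.Agent.U963.JN.Kron
import Pool.Agent.U963.JN.Tr
import Pool.Agent.U963.JN.Chk
import Pool.Agent.Y463.MP.Func

/-!
# The family of braid words
-/

set_option autoImplicit false

namespace Pool.Agent.U963.JN

open Finset LaurentPolynomial Pool.Agent.H891R2.Jones Pool.Agent.W639.RB Pool.Agent.Y463.SK Pool.Agent.Y463.MP
open Pool.Agent.TH561 (dl)

/-- the `n`-th power of a word -/
def pw (w : List (Bool × ℕ)) (n : ℕ) : List (Bool × ℕ) := (List.replicate n w).flatten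

theorem pw_succ (w : List (Bool × ℕ)) (n : ℕ) : pw w (n+1) = w ++ pw w n := by
  unfold pw
  rw [List.replicate_succ, List.flatten_cons]

theorem pw_succ' (w : List (Bool × ℕ)) (n : ℕ) : pw w (n+1) = pw w n ++ w := by
  unfold pw
  rw [List.replicate_succ', List.flatten_append]
  simp

theorem invL_append (w w' : List (Bool × ℕ)) : invL (w ++ w') = invL w' ++ invL w := by
  simp [invL]

theorem invL_com (x y : List (Bool × ℕ)) : invL (com x y) = com y x := by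
  unfold com
  simp only [invL_append, invL_invL, List.append_assoc]

theorem invL_pw (w : List (Bool × ℕ)) (n : ℕ) : invL (pw w n) = pw (invL w) n := by
  induction n with
  | zero => rfl
  | succ n ih => rw [pw_succ, invL_append, ih, pw_succ']

/-! ### the letters, the permutation and the writhe -/

/-- the letters are `σ_1^{±1}, σ_2^{±1}, σ_3^{±1}`, the permutation is trivial -/
structure Good (w : List (Bool × ℕ)) : Prop where
  lt : ∀ x ∈ w, x.2 + 1 < 4
  pure : permL w = 1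

theorem com_lt {x y : List (Bool × ℕ)} (hx : ∀ z ∈ x, z.2 + 1 < 4) (hy : ∀ z ∈ y, z.2 + 1 < 4) : 
    ∀ z ∈ com x y, z.2 + 1 < 4 := by
  intro z hz
  unfold com at hz
  simp only [List.mem_append] at hz
  rcases hz with ((hz | hz) | hz) | hz
  · exact hx z hz
  · exact hy z hz
  · exact invL_lt hx z hz
  · exact invL_lt hy z hz

theorem permL_invL {w : List (Bool × ℕ)} (h : permL w = 1) : permL (invL w) = 1 := by
  have := permL_inv w
  rwa [h, one_mul] at this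

theorem permL_com {x y : List (Bool × ℕ)} (hy : permL y = 1) : permL (com x y) = 1 := by
  unfold com
  rw [permL_append, permL_append, permL_append, hy, permL_invL hy, mul_one, mul_one, permL_inv]

theorem Good.com {x y : List (Bool × ℕ)} (hx : Good x) (hy : Good y) : Good (com x y) := 
  ⟨com_lt hx.lt hy.lt, permL_com hy.pure⟩

theorem Good.pw {w : List (Bool × ℕ)} (h : Good w) (n : ℕ) : Good (pw w n) := by
  induction n with
  | zero => exact ⟨by simp [JN.pw], rfl⟩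
  | succ n ih => 
    rw [pw_succ]
    refine ⟨fun x hx => ?_, by rw [permL_append, h.pure, ih.pure, one_mul]⟩
    rcases List.mem_append.1 hx with hx | hx
    · exact h.lt x hx
    · exact ih.lt x hx

theorem costS_com {x y : List (Bool × ℕ)} (hx : permL x = 1) (hy : permL y = 1) (U : ℕ → ℤ) : 
    costS (com x y) U = 0 := by
  have h1 : ∀ w : List (Bool × ℕ), permL w = 1 → costS (invL w) U = - costS w U := by
    intro w hw
    have := costS_inv w U
    rw [hw] at this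
    exact this
  have h2 : ∀ w : List (Bool × ℕ), permL w = 1 → (U ∘ ⇑(permL w)) = U := by
    intro w hw; rw [hw]; rfl
  unfold com
  rw [costS_append, costS_append, costS_append, h2 x hx, h2 (x ++ y) (by rw [permL_append, hx, hy, one_mul]), 
    h2 (x ++ y ++ invL x) (by rw [permL_append, permL_append, hx, hy, permL_invL hx, one_mul, one_mul]), 
    h1 x hx, h1 y hy]
  ring

/-! ### the words -/

theorem good_gam : Good gam := ⟨by decide, by
  show Equiv.swap 0 (0+1) * (Equiv.swap 0 (0+1) * (Equiv.swap 2 (2+1) * (Equiv.swap 2 (2+1) * 1))) = 1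
  rw [mul_one, Equiv.swap_mul_self, mul_one, Equiv.swap_mul_self]⟩

theorem good_g2 : Good g2 := ⟨com_lt (by decide +kernel) good_gam.lt, permL_com good_gam.pure⟩
theorem good_g3 : Good g3 := ⟨com_lt (by decide +kernel) good_gam.lt, permL_com good_gam.pure⟩
theorem good_g5 : Good g5 := ⟨com_lt (by decide +kernel) good_gam.lt, permL_com good_gam.pure⟩

theorem good_hh : Good hh := ⟨by decide, by
  show Equiv.swap 0 (0+1) * (Equiv.swap 0 (0+1) * 1) = 1
  rw [mul_one, Equiv.swap_mul_self]⟩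

theorem good_zz : Good zz := ⟨by decide, by
  have h1 : ∀ i, i < 4 → permL zz i = i := by decide
  have h2 : ∀ w : List (Bool × ℕ), (∀ x ∈ w, x.2 + 1 < 4) → ∀ i, 4 ≤ i → permL w i = i := by
    intro w
    induction w with
    | nil => intro _ i _; rfl
    | cons x w ih =>
      intro hw i hi
      have h6 : permL (x :: w) = Equiv.swap x.2 (x.2+1) * permL w := by simp [permL]
      have := hw x List.mem_cons_self
      rw [h6, Equiv.Perm.mul_apply, ih (fun y hy => hw y (List.mem_cons_of_mem _ hy)) i hi]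
      exact Equiv.swap_apply_of_ne_of_ne (by omega) (by omega)
  ext i
  rcases Nat.lt_or_ge i 4 with hi | hi
  · exact h1 i hi
  · exact h2 zz (by decide) i hi⟩

/-- `[g_5^{5^{36k}}, [g_2^{2^{36k}}, g_3^{3^{36k}}]]` -/
def W0 (k : ℕ) : List (Bool × ℕ) := com (pw g5 (5^(36*k))) (com (pw g2 (2^(36*k))) (pw g3 (3^(36*k))))

/-- the `n`-fold commutators with `(σ_1 σ_2)^6` and `σ_1^{2m}` -/
def Wn (m k : ℕ) : ℕ → List (Bool × ℕ)
  | 0 => W0 k
  | n+1 => com (pw hh m) (com zz (Wn m k n))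

theorem good_Wn (m k n : ℕ) : Good (Wn m k n) := by
  induction n with
  | zero => exact (good_g5.pw _).com ((good_g2.pw _).com (good_g3.pw _))
  | succ n ih => exact (good_hh.pw _).com (good_zz.com ih)

theorem cost_Wn (m k n : ℕ) (U : ℕ → ℤ) : costS (Wn m k n) U = 0 := by
  rcases n with _ | n
  · exact costS_com (good_g5.pw _).pure ((good_g2.pw _).com (good_g3.pw _)).pure U
  · exact costS_com (good_hh.pw _).pure (good_zz.com (good_Wn m k n)).pure U

/-! ### the congruence -/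

/-- the element of a word -/
noncomputable def wZ (w : List (Bool × ℕ)) : TLZ 4 := wd (T 1 : ℤ[T;T⁻¹]) (T (-1)) (EZ 4) w

theorem wZ_append (w w' : List (Bool × ℕ)) : wZ (w ++ w') = wZ w * wZ w' := wd_append _ _ _ _ _

theorem wZ_inv {w : List (Bool × ℕ)} (hw : ∀ x ∈ w, x.2 + 1 < 4) : wZ w * wZ (invL w) = 1 := 
  wd_inv T_mul_inv (isTL_EZ 4) w hw

theorem wZ_pw (w : List (Bool × ℕ)) (n : ℕ) : wZ (pw w n) = wZ w ^ n := by
  induction n with
  | zero => rfl
  | succ n ih => rw [pw_succ', wZ_append, ih, pow_succ]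

theorem cg_com {m n : ℤ[T;T⁻¹]} {x y : List (Bool × ℕ)} (hx : Cg m (wZ x) 1) (hy : Cg n (wZ y) 1) 
    (h1 : ∀ z ∈ x, z.2 + 1 < 4) (h2 : ∀ z ∈ y, z.2 + 1 < 4) : Cg (m * n) (wZ (com x y)) 1 := by
  unfold com
  rw [wZ_append, wZ_append, wZ_append]
  exact Cg.com hx hy (wZ_inv h1) (wZ_inv h2)

theorem cg_comU {m n a a' : ℤ[T;T⁻¹]} {x y : List (Bool × ℕ)} (ha : a * a' = 1) (hx : Cg m (wZ x) (a • 1)) 
    (hy : Cg n (wZ y) 1) (h1 : ∀ z ∈ x, z.2 + 1 < 4) (h2 : ∀ z ∈ y, z.2 + 1 < 4) : 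
    Cg (m * n) (wZ (com x y)) 1 := by
  unfold com
  rw [wZ_append, wZ_append, wZ_append]
  exact Cg.comU ha hx hy (wZ_inv h1) (wZ_inv h2)

theorem cg_pw {p : ℕ} {w : List (Bool × ℕ)} (h : Cg (p : ℤ[T;T⁻¹]) (wZ w) 1) (k : ℕ) : 
    Cg ((p : ℤ[T;T⁻¹]) ^ (k+1)) (wZ (pw w (p ^ k))) 1 := by
  rw [wZ_pw]
  exact h.pow k

theorem cg_g2 : Cg ((2 : ℕ) : ℤ[T;T⁻¹]) (wZ g2) 1 := 
  Cg_com T_mul_inv (isTL_EZ 4) (by norm_num) t2 (by decide +kernel)
theorem cg_g3 : Cg ((3 : ℕ) : ℤ[T;T⁻¹]) (wZ g3) 1 := 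
  Cg_com T_mul_inv (isTL_EZ 4) (by norm_num) t3 (by decide +kernel)
theorem cg_g5 : Cg ((5 : ℕ) : ℤ[T;T⁻¹]) (wZ g5) 1 := 
  Cg_com T_mul_inv (isTL_EZ 4) (by norm_num) t5 (by decide +kernel)

theorem cg_W0 (k : ℕ) : Cg ((30 : ℤ[T;T⁻¹]) ^ (36*k+1)) (wZ (W0 k)) 1 := by
  have h := cg_com (cg_pw cg_g5 (36*k)) (cg_com (cg_pw cg_g2 (36*k)) (cg_pw cg_g3 (36*k)) 
    (good_g2.pw _).lt (good_g3.pw _).lt) (good_g5.pw _).lt ((good_g2.pw _).com (good_g3.pw _)).lt
  refine h.dvd ⟨1, ?_⟩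
  rw [mul_one, ← mul_pow, ← mul_pow]
  norm_num

/-- `(σ_1 σ_2)^6` is a unit modulo `A^4 + 1` -/
theorem cg_zz : Cg (T 4 + 1 : ℤ[T;T⁻¹]) (wZ zz) ((T (-36) : ℤ[T;T⁻¹]) • 1) := by
  have h := Cg_word' T_mul_inv (isTL_EZ 4) tz (by decide)
  have e1 : (T 1 : ℤ[T;T⁻¹]) ^ 4 = T 4 := by rw [T_pow]; norm_num
  have e2 : ((T (-1) : ℤ[T;T⁻¹]) ^ 3) ^ zp.length = T (-36) := by 
    rw [T_pow, T_pow]
    norm_num [zp]
  rw [e1, e2] at h
  exact h

/-- the geometric sum -/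
noncomputable def Gs (m : ℕ) : ℤ[T;T⁻¹] := ∑ j ∈ Finset.range m, T (8 * j)

theorem Gs_mul (m : ℕ) : (T 8 - 1) * Gs m = T (8 * m) - 1 := by
  have h : ∀ j : ℕ, (T (8 * j) : ℤ[T;T⁻¹]) = T 8 ^ j := by
    intro j
    rw [T_pow]
    congr 1
    ring
  unfold Gs
  rw [h m, Finset.sum_congr rfl (fun j _ => h j)]
  exact mul_geom_sum (T 8) m

/-- the powers of `σ_1^2` -/
theorem wZ_hh (m : ℕ) : wZ (pw hh m) = (T (2 * m) : ℤ[T;T⁻¹]) • (1 : TLZ 4) + 
    ((1 - T (-4)) * T (6 - 6 * m) * Gs m) • EZ 4 0 := by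
  have hsq : EZ 4 0 * EZ 4 0 = (-(T 1)^2 - (T (-1))^2 : ℤ[T;T⁻¹]) • EZ 4 0 := (isTL_EZ 4).sq 0 (by omega)
  have e2 : (T 1 : ℤ[T;T⁻¹]) ^ 2 = T 2 := by rw [T_pow]; norm_num
  have e2' : (T (-1) : ℤ[T;T⁻¹]) ^ 2 = T (-2) := by rw [T_pow]; norm_num
  rw [e2, e2'] at hsq
  induction m with
  | zero => 
    have : pw hh 0 = [] := rfl
    rw [this]
    simp [wZ, wd, Gs]
  | succ m ih =>
    have h0 : wZ hh = (T 2 : ℤ[T;T⁻¹]) • (1 : TLZ 4) + (1 - T (-4) : ℤ[T;T⁻¹]) • EZ 4 0 := by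
      have h1 : wZ hh = ((T 1 : ℤ[T;T⁻¹]) • (1 : TLZ 4) + (T (-1) : ℤ[T;T⁻¹]) • EZ 4 0) * 
          ((T 1 : ℤ[T;T⁻¹]) • (1 : TLZ 4) + (T (-1) : ℤ[T;T⁻¹]) • EZ 4 0) := by
        simp [wZ, wd, hh, ltr]
      rw [h1]
      have h2 : (T 1 : ℤ[T;T⁻¹]) * T (-1) + T (-1) * T 1 + T (-1) * T (-1) * (-T 2 - T (-2)) = 1 - T (-4) := by
        simp only [mul_sub, mul_neg, ← T_add]
        norm_num
        ring
      calc _ = (T 1 * T 1 : ℤ[T;T⁻¹]) • (1 : TLZ 4) + (T 1 * T (-1) + T (-1) * T 1 + T (-1) * T (-1) * (-T 2 - T (-2)) : ℤ[T;T⁻¹]) • EZ 4 0 := by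
            simp only [add_mul, mul_add, smul_mul_assoc, mul_smul_comm, one_mul, mul_one, hsq]
            module
        _ = _ := by 
          rw [h2, ← T_add]
          norm_num
    rw [pw_succ, wZ_append, ih, h0]
    have h3 : T 2 * ((1 - T (-4)) * T (6 - 6 * m) * Gs m) + (1 - T (-4)) * T (2 * m) + 
        (1 - T (-4)) * ((1 - T (-4)) * T (6 - 6 * m) * Gs m) * (-T 2 - T (-2)) = 
        (1 - T (-4)) * T (6 - 6 * ((m + 1 : ℕ) : ℤ)) * Gs (m + 1) := by
      have g1 : Gs (m + 1) = Gs m + T (8 * m) := by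
        unfold Gs
        rw [Finset.sum_range_succ]
      have g2 : (T 2 : ℤ[T;T⁻¹]) + (1 - T (-4)) * (-T 2 - T (-2)) = T (-6) := by
        simp only [sub_mul, mul_sub, mul_neg, ← T_add, one_mul]
        norm_num
      have g3 : (T (6 - 6 * ((m + 1 : ℕ) : ℤ)) : ℤ[T;T⁻¹]) = T (-6) * T (6 - 6 * m) := by
        rw [← T_add]
        congr 1
        push_cast
        ring
      have g4 : (T (6 - 6 * ((m + 1 : ℕ) : ℤ)) : ℤ[T;T⁻¹]) * T (8 * m) = T (2 * m) := by
        rw [← T_add]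
        congr 1
        push_cast
        ring
      rw [g1, mul_add, mul_assoc (1 - T (-4)) (T (6 - 6 * ((m + 1 : ℕ) : ℤ))) (T (8 * m)), g4, g3, ← g2]
      ring
    calc _ = (T 2 * T (2 * m) : ℤ[T;T⁻¹]) • (1 : TLZ 4) + (T 2 * ((1 - T (-4)) * T (6 - 6 * m) * Gs m) + 
          (1 - T (-4)) * T (2 * m) + (1 - T (-4)) * ((1 - T (-4)) * T (6 - 6 * m) * Gs m) * (-T 2 - T (-2))) • 
            EZ 4 0 := by
          simp only [add_mul, mul_add, smul_mul_assoc, mul_smul_comm, one_mul, mul_one, hsq]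
          module
      _ = _ := by
        rw [h3, ← T_add]
        congr 3
        push_cast
        ring

/-- the powers of `σ_1^2` at roots of unity -/
theorem cg_hh (m : ℕ) : Cg ((T 4 - 1) * Gs m : ℤ[T;T⁻¹]) (wZ (pw hh m)) ((T (2 * m) : ℤ[T;T⁻¹]) • 1) := by
  refine ⟨(T (-4) * T (6 - 6 * m) : ℤ[T;T⁻¹]) • EZ 4 0, ?_⟩
  rw [wZ_hh, add_sub_cancel_left, smul_smul]
  congr 1
  have h : (1 : ℤ[T;T⁻¹]) - T (-4) = (T 4 - 1) * T (-4) := by
    rw [sub_mul, ← T_add]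
    norm_num
  rw [h]
  ring

theorem cg_Wn (m k n : ℕ) : Cg ((30 : ℤ[T;T⁻¹]) ^ (36*k+1) * (T (8 * m) - 1) ^ n) (wZ (Wn m k n)) 1 := by
  induction n with
  | zero => rw [pow_zero, mul_one]; exact cg_W0 k
  | succ n ih =>
    show Cg _ (wZ (com (pw hh m) (com zz (Wn m k n)))) 1
    have e1 : (T (-36) : ℤ[T;T⁻¹]) * T 36 = 1 := by rw [← T_add]; norm_num
    have e2 : (T (2 * m) : ℤ[T;T⁻¹]) * T (-(2 * m)) = 1 := by rw [← T_add, add_neg_cancel, T_zero]
    have h1 := cg_comU e1 cg_zz ih good_zz.lt (good_Wn m k n).lt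
    have h2 := cg_comU e2 (cg_hh m) h1 (good_hh.pw m).lt (good_zz.com (good_Wn m k n)).lt
    refine h2.dvd ⟨1, ?_⟩
    have e3 : (T 4 - 1 : ℤ[T;T⁻¹]) * (T 4 + 1) = T 8 - 1 := by
      have : (T 4 : ℤ[T;T⁻¹]) * T 4 = T 8 := by rw [← T_add]; norm_num
      linear_combination this
    rw [mul_one, pow_succ, ← Gs_mul, ← e3]
    ring

/-! ### the bracket of a diagram with a word in a box -/

theorem bracket_draw (W : List (Bool × ℕ)) : ∀ O : Outer 4, (∀ x ∈ W, x.2 + 1 < 4) → 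
    (draw O W).close.bracket = PhiS (by omega) O (wZ W) := by
  have hm : 0 < 4 := by omega
  have key : ∀ (W : List (Bool × ℕ)) (O : Outer 4) (b : TLZ 4), (∀ x ∈ W, x.2 + 1 < 4) → 
      PhiS hm (draw O W) b = PhiS hm O (wZ W * b) := by
    intro W
    induction W with
    | nil => intro O b _; show PhiS hm O b = PhiS hm O (1 * b); rw [one_mul]
    | cons x W ih =>
      intro O b hW
      have hx := hW x List.mem_cons_self
      have h1 : draw O (x :: W) = draw (O.push x.1 x.2) W := rfl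
      have h2 : wZ (x :: W) = sZ 4 x * wZ W := by simp [wZ, wd, sZ]
      rw [h1, ih _ _ (fun y hy => hW y (List.mem_cons_of_mem _ hy))]
      have h3 := PhiS_push hm O ((x.1, ⟨x.2, by omega⟩) : Letter 4) (wZ W * b)
      have h4 : ((((x.1, ⟨x.2, by omega⟩) : Letter 4).2 : Fin (4 - 1)) : ℕ) = x.2 := rfl
      rw [h4] at h3
      rw [h3, h2, mul_assoc]
  intro O hW
  rw [← PhiS_one hm, key W O 1 hW, mul_one]

/-- the unit in the normalisation -/
noncomputable def un (w : ℤ) : ℤ[T;T⁻¹] := (if Even w then 1 else -1) * T (-3 * w)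

theorem fPoly_eq {P : Type} (D : Diagram P) : D.fPoly = un D.writhe * D.bracket := rfl

/-- **The local statement**: a word which is congruent to `1` can be inserted. -/
theorem local_cong {W : List (Bool × ℕ)} (hW : ∀ x ∈ W, x.2 + 1 < 4) {n : ℤ[T;T⁻¹]} (h : Cg n (wZ W) 1) 
    (hc : ∀ U, costS W U = 0) (V : List (Bool × ℕ)) (hV : ∀ x ∈ V, x.2 + 1 < 4) (hp : permL W = 1) (O : Outer 4) : 
    n ∣ (draw O (W ++ V)).close.fPoly - (draw O V).close.fPoly := by
  have hWV : ∀ x ∈ W ++ V, x.2 + 1 < 4 := by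
    intro x hx
    rcases List.mem_append.1 hx with hx | hx
    · exact hW x hx
    · exact hV x hx
  have h1 : (draw O (W ++ V)).close.writhe = (draw O V).close.writhe := by
    rw [close_writhe, close_writhe, (draw_writhe _ O hWV).1, (draw_writhe _ O hV).1, costS_append, hc, hp]
    have : pat O.up ∘ ⇑(1 : Equiv.Perm ℕ) = pat O.up := rfl
    rw [this, zero_add]
  obtain ⟨z, hz⟩ := h
  rw [fPoly_eq, fPoly_eq, h1, ← mul_sub, bracket_draw _ O hWV, bracket_draw _ O hV, ← map_sub, wZ_append]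
  have h2 : wZ W * wZ V - wZ V = n • (z * wZ V) := by
    rw [← smul_mul_assoc, ← hz, sub_mul, one_mul]
  rw [h2, map_smul, smul_eq_mul]
  exact ⟨un (draw O V).close.writhe * PhiS (by omega) O (z * wZ V), by ring⟩

/-- `σ_1 σ_2 σ_3` -/
def tl : List (Bool × ℕ) := [(true, 0), (true, 1), (true, 2)]

theorem tl_lt : ∀ x ∈ tl, x.2 + 1 < 4 := by decide

theorem owr_clo (W : List (Bool × ℕ)) (hW : ∀ x ∈ W, x.2 + 1 < 4) (hc : ∀ U, costS W U = 0) (hp : permL W = 1) : 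
    (draw (braidClosure 4) (W ++ tl)).close.writhe = 3 := by
  have hWV : ∀ x ∈ W ++ tl, x.2 + 1 < 4 := by
    intro x hx
    rcases List.mem_append.1 hx with hx | hx
    · exact hW x hx
    · exact tl_lt x hx
  rw [close_writhe, (draw_writhe _ _ hWV).1, costS_append, hc, hp]
  have : pat (braidClosure 4).up ∘ ⇑(1 : Equiv.Perm ℕ) = pat (braidClosure 4).up := rfl
  rw [this, zero_add]
  decide

end Pool.Agent.U963.JN
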