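import Pool.Agent.Y466.FT.Fam
import Pool.Agent.U963.JN.Fam

/-!
# Commutators of pure braids and Vassiliev invariants
-/

set_option autoImplicit false

namespace Pool.Agent.U963.JN

open Pool.Agent.Y463.SK (invL permL permL_append permL_inv)
open Pool.Agent.Y466.FT hiding pw wd
open Pool.Agent.H835R2 Pool.Agent.H835R2.Knot Pool.Agent.H835R2.Flat

section
variable {M : Type*} [Monoid M] {A : Type} [AddCommGroup A] {R E : Set (M × M)}

/-- the difference operator of `w` lowers the degree by `a` -/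
def Lev (A : Type) [AddCommGroup A] (R E : Set (M × M)) (a : ℕ) (w : M) : Prop :=
  ∀ φ : M → A, Iv R φ → ∀ n, Dg E (n + a) φ → Dg E n (Tr w φ)

theorem Lev.of_pu {w : M} (hw : Pu R E w) : Lev A R E 1 w := fun _ hR _ h => h.tr hR hw

theorem Lev.com {a b : ℕ} {x x' y y' : M} (hx : Lev A R E a x) (hy : Lev A R E b y) 
    (h1 : ∀ c : Con M, (∀ r ∈ R, c r.1 r.2) → c (x * x') 1)
    (h2 : ∀ c : Con M, (∀ r ∈ R, c r.1 r.2) → c (y * y') 1) : Lev A R E (a + b) (x * y * x' * y') := by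
  intro φ hφ n h
  have d1 : Dg E n (Tr y (Tr x φ)) := by
    refine hy _ (hφ.tr x) n (hx φ hφ (n + b) ?_)
    have : n + b + a = n + (a + b) := by omega
    rwa [this]
  have d2 : Dg E n (Tr x (Tr y φ)) := by
    refine hx _ (hφ.tr y) n (hy φ hφ (n + a) ?_)
    have : n + a + b = n + (a + b) := by omega
    rwa [this]
  refine ((d1.sub d2).trans (x' * y')).congr fun p => ?_
  have e1 := h1 (cphi φ) (fun r hr => hφ r hr) y (y' * p)
  have e2 := h2 (cphi φ) (fun r hr => hφ r hr) 1 p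
  simp only [mul_assoc, one_mul, mul_one] at e1 e2
  unfold Tr
  simp only [mul_assoc]
  rw [e1, e2]
  abel

end

/-! ### words at a place -/

/-- the strands are renumbered -/
def shift (j : ℕ) (w : List (Bool × ℕ)) : List (Bool × ℕ) := w.map (fun x => (x.1, x.2 + j))

theorem shift_append (j : ℕ) (w w' : List (Bool × ℕ)) : shift j (w ++ w') = shift j w ++ shift j w' := by
  simp [shift]

theorem shift_invL (j : ℕ) (w : List (Bool × ℕ)) : shift j (invL w) = invL (shift j w) := by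
  simp [shift, invL, List.map_reverse, List.map_map, Function.comp_def]

theorem shift_com (j : ℕ) (x y : List (Bool × ℕ)) : shift j (com x y) = com (shift j x) (shift j y) := by
  unfold com
  rw [shift_append, shift_append, shift_append, shift_invL, shift_invL]

theorem shift_zero (w : List (Bool × ℕ)) : shift 0 w = w := by simp [shift]

theorem permL_shift (j : ℕ) (w : List (Bool × ℕ)) : 
    (∀ i, permL (shift j w) (i + j) = permL w i + j) ∧ ∀ i < j, permL (shift j w) i = i := by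
  induction w with
  | nil => exact ⟨fun i => rfl, fun i _ => rfl⟩
  | cons x w ih =>
    have h2 : permL (shift j (x :: w)) = Equiv.swap (x.2 + j) (x.2 + j + 1) * permL (shift j w) := by 
      simp [permL, shift]
    have h3 : permL (x :: w) = Equiv.swap x.2 (x.2 + 1) * permL w := by simp [permL]
    refine ⟨fun i => ?_, fun i hi => ?_⟩
    · rw [h2, h3, Equiv.Perm.mul_apply, ih.1 i, Equiv.Perm.mul_apply]
      have hinj : Function.Injective (fun k : ℕ => k + j) := fun a b h => Nat.add_right_cancel h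
      have h4 : Equiv.swap (x.2 + j) (x.2 + 1 + j) (permL w i + j) = Equiv.swap x.2 (x.2 + 1) (permL w i) + j := 
        hinj.swap_apply x.2 (x.2 + 1) (permL w i)
      rw [← h4]
      congr 2
      omega
    · rw [h2, Equiv.Perm.mul_apply, ih.2 i hi]
      exact Equiv.swap_apply_of_ne_of_ne (by omega) (by omega)

theorem permL_shift_one {j : ℕ} {w : List (Bool × ℕ)} (h : permL w = 1) : permL (shift j w) = 1 := by
  ext i
  rcases Nat.lt_or_ge i j with hi | hi
  · exact (permL_shift j w).2 i hi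
  · obtain ⟨l, rfl⟩ : ∃ l, i = l + j := ⟨i - j, by omega⟩
    rw [(permL_shift j w).1 l, h]
    rfl

section
variable {A : Type} [AddCommGroup A] {k : ℕ} {m : Fin k → ℕ} {j : Fin k}

/-- a word at the place `j` -/
def at_ (j : Fin k) (w : List (Bool × ℕ)) : Fin k → FreeMonoid (Bool × ℕ) := 
  Pi.mulSingle j (FreeMonoid.ofList w)

theorem at_append (w w' : List (Bool × ℕ)) : at_ j (w ++ w') = at_ j w * at_ j w' := by
  unfold at_
  rw [FreeMonoid.ofList_append, Pi.mulSingle_mul]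

theorem at_inv {w : List (Bool × ℕ)} (hw : ∀ l ∈ w, l.2 + 1 < m j) 
    (c : Con (Fin k → FreeMonoid (Bool × ℕ))) (hR : ∀ r ∈ RS m, c r.1 r.2) : c (at_ j w * at_ j (invL w)) 1 := by
  have h := cl_inv hR hw
  rw [← map_one (cl c j), cl_eq, Pi.mulSingle_one] at h
  rw [← at_append]
  exact h

theorem Lev_pure {w : List (Bool × ℕ)} (hw : ∀ l ∈ w, l.2 + 1 < m j) (hp : permL w = 1) : 
    Lev A (RS m) (ES m) 1 (at_ j w) := Lev.of_pu (pu hw hp)

theorem Lev_comW {a b : ℕ} {x y : List (Bool × ℕ)} (hx : Lev A (RS m) (ES m) a (at_ j x)) 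
    (hy : Lev A (RS m) (ES m) b (at_ j y)) (h1 : ∀ l ∈ x, l.2 + 1 < m j) (h2 : ∀ l ∈ y, l.2 + 1 < m j) : 
    Lev A (RS m) (ES m) (a + b) (at_ j (com x y)) := by
  unfold com
  rw [at_append, at_append, at_append]
  exact Lev.com hx hy (at_inv h1) (at_inv h2)

theorem shift_lt {i : ℕ} (h : i + 4 ≤ m j) {w : List (Bool × ℕ)} (hw : ∀ x ∈ w, x.2 + 1 < 4) : 
    ∀ l ∈ shift i w, l.2 + 1 < m j := by
  intro l hl
  obtain ⟨x, hx, rfl⟩ := List.mem_map.1 hl
  have := hw x hx
  show x.2 + i + 1 < m j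
  omega

/-- **The level of the words** -/
theorem Lev_Wn (i : ℕ) (h : i + 4 ≤ m j) (m' k' n : ℕ) : 
    Lev A (RS m) (ES m) (3 + 2 * n) (at_ j (shift i (Wn m' k' n))) := by
  have hg : ∀ w, Good w → Lev A (RS m) (ES m) 1 (at_ j (shift i w)) := fun w hw => 
    Lev_pure (shift_lt h hw.lt) (permL_shift_one hw.pure)
  induction n with
  | zero =>
    show Lev A (RS m) (ES m) (1 + (1 + 1)) (at_ j (shift i (W0 k')))
    unfold W0
    rw [shift_com, shift_com]
    refine Lev_comW (hg _ (good_g5.pw _)) (Lev_comW (hg _ (good_g2.pw _)) (hg _ (good_g3.pw _)) 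
      (shift_lt h (good_g2.pw _).lt) (shift_lt h (good_g3.pw _).lt)) (shift_lt h (good_g5.pw _).lt) ?_
    rw [← shift_com]
    exact shift_lt h ((good_g2.pw _).com (good_g3.pw _)).lt
  | succ n ih =>
    show Lev A (RS m) (ES m) (3 + 2 * (n + 1)) (at_ j (shift i (com (pw hh m') (com zz (Wn m' k' n)))))
    have : 3 + 2 * (n + 1) = 1 + (1 + (3 + 2 * n)) := by omega
    rw [this, shift_com, shift_com]
    refine Lev_comW (hg _ (good_hh.pw _)) (Lev_comW (hg _ good_zz) ih (shift_lt h good_zz.lt) 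
      (shift_lt h (good_Wn m' k' n).lt)) (shift_lt h (good_hh.pw _).lt) ?_
    rw [← shift_com]
    exact shift_lt h (good_zz.com (good_Wn m' k' n)).lt

end

/-! ### diagrams -/

section
variable {A : Type} [AddCommGroup A]

theorem ext_insert {v : Word → A} {d : ℕ} (hv : IsInvariant v) (hd : DegreeLE d v) (u₀ u₁ : Word) (i : ℕ) 
    (h : i + 4 ≤ (Knot.run u₀ Front.empty).n) (m k n : ℕ) (hn : d ≤ 2 * n + 2) : 
    ext v (u₀ ++ draw (shift i (Wn m k n)) ++ u₁) = ext v (u₀ ++ u₁) := by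
  have h0 : ∀ j : Fin 1, Pool.Agent.Y466.FT.wd u₀ (fun _ => u₁) j = (Knot.run u₀ Front.empty).n := by
    intro j
    have hj : j = 0 := Subsingleton.elim _ _
    subst hj
    rw [run_n]
    unfold Pool.Agent.Y466.FT.wd
    simp
    rfl
  have hd' : DegreeLE (2 * n + 2) v := DegreeLE.mono hn hd
  have h1 := dg_phi u₀ (fun _ : Fin 1 => u₁) hd'
  have h2 := iv_phi u₀ (fun _ : Fin 1 => u₁) hv
  have h3 := Lev_Wn (A := A) (m := Pool.Agent.Y466.FT.wd u₀ (fun _ : Fin 1 => u₁)) (j := 0) i 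
    (by rw [h0]; exact h) m k n _ h2 0 (by
      have : 0 + (3 + 2 * n) = 2 * n + 2 + 1 := by omega
      rw [this]
      exact h1)
  have h4 := h3 1
  unfold Tr at h4
  rw [mul_one, sub_eq_zero] at h4
  have e1 : phi u₀ (fun _ : Fin 1 => u₁) v (at_ 0 (shift i (Wn m k n))) = 
      ext v (u₀ ++ draw (shift i (Wn m k n)) ++ u₁) := by
    unfold phi plug at_ draw
    simp
  have e2 : phi u₀ (fun _ : Fin 1 => u₁) v 1 = ext v (u₀ ++ u₁) := by
    unfold phi plug
    simp
  rw [e1, e2] at h4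
  exact h4

theorem knot_insert (u₀ u₁ : Word) (i : ℕ) (h : i + 4 ≤ (Knot.run u₀ Front.empty).n) (m k n : ℕ) : 
    IsKnot (u₀ ++ draw (shift i (Wn m k n)) ++ u₁) ↔ IsKnot (u₀ ++ u₁) := by
  have hd : DegreeLE 0 (fun _ : Word => (1 : ℤ)) := by
    intro D _ S _ hS
    obtain ⟨x, rfl⟩ := Finset.card_eq_one.1 (by simpa using hS)
    rw [show ({x} : Finset ℕ).powerset = {∅, {x}} from rfl]
    rw [Finset.sum_pair (by simp)]
    simp
  have h1 := ext_insert (v := fun _ : Word => (1 : ℤ)) (fun _ _ _ _ => rfl) hd u₀ u₁ i h m k n (by omega)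
  unfold ext at h1
  by_cases h2 : IsKnot (u₀ ++ draw (shift i (Wn m k n)) ++ u₁) <;> by_cases h3 : IsKnot (u₀ ++ u₁)
  · exact ⟨fun _ => h3, fun _ => h2⟩
  · rw [if_pos h2, if_neg h3] at h1
    exact absurd h1 one_ne_zero
  · rw [if_neg h2, if_pos h3] at h1
    exact absurd h1.symm one_ne_zero
  · exact ⟨fun h => absurd h h2, fun h => absurd h h3⟩

theorem insert_eq {v : Word → A} {d : ℕ} (hv : IsInvariant v) (hd : DegreeLE d v) (u₀ u₁ : Word) (i : ℕ) 
    (h : i + 4 ≤ (Knot.run u₀ Front.empty).n) (m k n : ℕ) (hn : d ≤ 2 * n + 2) 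
    (hk : IsKnot (u₀ ++ u₁)) : 
    v (u₀ ++ draw (shift i (Wn m k n)) ++ u₁) = v (u₀ ++ u₁) := by
  have h1 := ext_insert hv hd u₀ u₁ i h m k n hn
  unfold ext at h1
  rwa [if_pos hk, if_pos ((knot_insert u₀ u₁ i h m k n).2 hk)] at h1

end

end Pool.Agent.U963.JN
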