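import Pool.Agent.Y463.SK.TLSpan

/-!
# A spanning set of the Temperley–Lieb algebra on four strands
-/

set_option autoImplicit false

namespace Pool.Agent.U963.JN

open Pool.Agent.Y463.SK

/-- vectors with 14 entries -/
structure V (R : Type*) where
  a0 : R
  a1 : R
  a2 : R
  a3 : R
  a4 : R
  a5 : R
  a6 : R
  a7 : R
  a8 : R
  a9 : R
  a10 : R
  a11 : R
  a12 : R
  a13 : R
deriving DecidableEq

/-- the coefficients of `b * (u + u' e_i)`, if `v` are the coefficients of `b` -/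
def stp {R : Type*} [CommRing R] (u u' d : R) (v : V R) (i : ℕ) : V R :=
  match i with
  | 0 => ⟨u*v.a0, u*v.a1 + u'*(v.a0+d*v.a1+v.a4), u*v.a2, u*v.a3, u*v.a4, u*v.a5+u'*(v.a2+d*v.a5), u*v.a6, u*v.a7,
      u*v.a8+u'*(v.a3+d*v.a8+v.a9+v.a11), u*v.a9, u*v.a10+u'*(v.a7+d*v.a10), u*v.a11,
      u*v.a12+u'*(v.a6+d*v.a12+v.a13), u*v.a13⟩
  | 1 => ⟨u*v.a0, u*v.a1, u*v.a2+u'*(v.a0+d*v.a2+v.a5+v.a6), u*v.a3, u*v.a4+u'*(v.a1+d*v.a4+v.a9), u*v.a5, u*v.a6, 
      u*v.a7+u'*(v.a3+d*v.a7+v.a10), u*v.a8, u*v.a9, u*v.a10, u*v.a11+u'*(v.a8+d*v.a11), u*v.a12,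
      u*v.a13+u'*(v.a12+d*v.a13)⟩
  | _ => ⟨u*v.a0, u*v.a1, u*v.a2, u*v.a3+u'*(v.a0+d*v.a3+v.a7), u*v.a4, u*v.a5, u*v.a6+u'*(v.a2+d*v.a6), u*v.a7, 
      u*v.a8+u'*(v.a1+d*v.a8+v.a10+v.a11), u*v.a9+u'*(v.a4+d*v.a9), u*v.a10, u*v.a11,
      u*v.a12+u'*(v.a5+d*v.a12+v.a13), u*v.a13⟩

section
variable {R B : Type*} [CommRing R] [Ring B] [Algebra R B] {d : R} {e : ℕ → B}

/-- the element with the coefficients `v` -/
def val (e : ℕ → B) (v : V R) : B :=
  v.a0 • (1 : B) + v.a1 • e 0 + v.a2 • e 1 + v.a3 • e 2 + v.a4 • (e 0 * e 1) + v.a5 • (e 1 * e 0) +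
    v.a6 • (e 1 * e 2) + v.a7 • (e 2 * e 1) + v.a8 • (e 0 * e 2) + v.a9 • (e 0 * e 1 * e 2) +
    v.a10 • (e 2 * e 1 * e 0) + v.a11 • (e 0 * e 2 * e 1) + v.a12 • (e 1 * e 0 * e 2) +
    v.a13 • (e 1 * e 0 * e 2 * e 1)

theorem val_mul0 (h : IsTLr 4 d e) (v : V R) : val e v * e 0 = val e (stp 0 1 d v 0) := by
  have h1 : e 0 * e 0 = d • e 0 := h.sq 0 (by omega)
  have h4 : e 0 * e 1 * e 0 = e 0 := h.up 0 (by omega)
  have h8 : e 2 * e 0 = e 0 * e 2 := (h.far 0 2 (by omega) (by omega)).symm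
  simp only [val, stp]
  generalize e 0 = a at *
  generalize e 1 = b at *
  generalize e 2 = c at *
  have p4 : b*a*a = d•(b*a) := by rw [mul_assoc, h1, mul_smul_comm]
  have p5 : b*c*a = b*a*c := by rw [mul_assoc, h8, ← mul_assoc]
  have p7 : a*c*a = d•(a*c) := by rw [mul_assoc, h8, ← mul_assoc, h1, smul_mul_assoc]
  have p8 : a*b*c*a = a*c := by rw [mul_assoc, h8, ← mul_assoc, h4]
  have p9 : c*b*a*a = d•(c*b*a) := by rw [mul_assoc, h1, mul_smul_comm]
  have p10 : a*c*b*a = a*c := by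
    rw [← h8, mul_assoc c a b, mul_assoc c (a*b) a, h4]
  have p11 : b*a*c*a = d•(b*a*c) := by
    rw [mul_assoc (b*a) c a, h8, ← mul_assoc, mul_assoc b a a, h1, mul_smul_comm, smul_mul_assoc]
  have p12 : b*a*c*b*a = b*a*c := by
    have : b*a*c*b*a = b*(a*c*b*a) := by simp only [mul_assoc]
    rw [this, p10, mul_assoc]
  simp only [add_mul, smul_mul_assoc, one_mul, h1, h4, h8, p4, p5, p7, p8, p9, p10, p11, p12]
  module

theorem val_mul1 (h : IsTLr 4 d e) (v : V R) : val e v * e 1 = val e (stp 0 1 d v 1) := by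
  have h2 : e 1 * e 1 = d • e 1 := h.sq 1 (by omega)
  have h5 : e 1 * e 0 * e 1 = e 1 := h.down 0 (by omega)
  have h6 : e 1 * e 2 * e 1 = e 1 := h.up 1 (by omega)
  simp only [val, stp]
  generalize e 0 = a at *
  generalize e 1 = b at *
  generalize e 2 = c at *
  have p4 : a*b*b = d•(a*b) := by rw [mul_assoc, h2, mul_smul_comm]
  have p5 : c*b*b = d•(c*b) := by rw [mul_assoc, h2, mul_smul_comm]
  have p7 : a*b*c*b = a*b := by rw [mul_assoc, mul_assoc, ← mul_assoc b c b, h6]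
  have p8 : c*b*a*b = c*b := by rw [mul_assoc, mul_assoc, ← mul_assoc b a b, h5]
  have p9 : a*c*b*b = d•(a*c*b) := by rw [mul_assoc, h2, mul_smul_comm]
  have p10 : b*a*c*b*b = d•(b*a*c*b) := by rw [mul_assoc, h2, mul_smul_comm]
  simp only [add_mul, smul_mul_assoc, one_mul, h2, h5, h6, p4, p5, p7, p8, p9, p10]
  module

theorem val_mul2 (h : IsTLr 4 d e) (v : V R) : val e v * e 2 = val e (stp 0 1 d v 2) := by
  have h3 : e 2 * e 2 = d • e 2 := h.sq 2 (by omega)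
  have h7 : e 2 * e 1 * e 2 = e 2 := h.down 1 (by omega)
  have h8 : e 2 * e 0 = e 0 * e 2 := (h.far 0 2 (by omega) (by omega)).symm
  simp only [val, stp]
  generalize e 0 = a at *
  generalize e 1 = b at *
  generalize e 2 = c at *
  have p4 : b*c*c = d•(b*c) := by rw [mul_assoc, h3, mul_smul_comm]
  have p5 : a*c*c = d•(a*c) := by rw [mul_assoc, h3, mul_smul_comm]
  have p7 : a*b*c*c = d•(a*b*c) := by rw [mul_assoc, h3, mul_smul_comm]
  have p8 : c*b*a*c = a*c := by rw [mul_assoc, ← h8, ← mul_assoc, h7]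
  have p9 : a*c*b*c = a*c := by rw [mul_assoc, mul_assoc, ← mul_assoc c b c, h7]
  have p10 : b*a*c*c = d•(b*a*c) := by rw [mul_assoc, h3, mul_smul_comm]
  have p11 : b*a*c*b*c = b*a*c := by
    rw [mul_assoc, mul_assoc, ← mul_assoc c b c, h7]
  simp only [add_mul, smul_mul_assoc, one_mul, h3, h7, p4, p5, p7, p8, p9, p10, p11]
  module

theorem val_lin (u u' : R) (v w : V R) (x : V R)
    (h : x = ⟨u*v.a0+u'*w.a0, u*v.a1+u'*w.a1, u*v.a2+u'*w.a2, u*v.a3+u'*w.a3, u*v.a4+u'*w.a4, u*v.a5+u'*w.a5, 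
      u*v.a6+u'*w.a6, u*v.a7+u'*w.a7, u*v.a8+u'*w.a8, u*v.a9+u'*w.a9, u*v.a10+u'*w.a10, u*v.a11+u'*w.a11, 
      u*v.a12+u'*w.a12, u*v.a13+u'*w.a13⟩) :
    val e x = u • val e v + u' • val e w := by
  subst h
  simp only [val]
  module

theorem val_stp (h : IsTLr 4 d e) (u u' : R) (v : V R) {i : ℕ} (hi : i + 1 < 4) :
    val e (stp u u' d v i) = val e v * (u • 1 + u' • e i) := by
  rw [mul_add, mul_smul_comm, mul_smul_comm, mul_one]
  have hi' : i = 0 ∨ i = 1 ∨ i = 2 := by omega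
  rcases hi' with rfl | rfl | rfl
  · rw [val_mul0 h]
    apply val_lin
    simp only [stp]
    congr 1 <;> ring
  · rw [val_mul1 h]
    apply val_lin
    simp only [stp]
    congr 1 <;> ring
  · rw [val_mul2 h]
    apply val_lin
    simp only [stp]
    congr 1 <;> ring

/-- the coefficients of `b * w` -/
def run (u u' d : R) : List (Bool × ℕ) → V R → V R
  | [], v => v
  | x :: w, v => run u u' d w (if x.1 then stp u u' d v x.2 else stp u' u d v x.2)

theorem val_run {A A' : R} (h : IsTLr 4 d e) (w : List (Bool × ℕ)) : ∀ (v : V R), (∀ x ∈ w, x.2 + 1 < 4) →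
    val e (run A A' d w v) = val e v * wd A A' e w := by
  induction w with
  | nil => intro v _; simp [run, wd]
  | cons x w ih =>
    intro v hw
    have h1 : wd A A' e (x :: w) = ltr A A' e x * wd A A' e w := by simp [wd]
    have hx := hw x List.mem_cons_self
    rw [run, ih _ (fun y hy => hw y (List.mem_cons_of_mem _ hy)), h1, ← mul_assoc]
    congr 1
    unfold ltr
    split_ifs
    · exact val_stp h _ _ _ hx
    · exact val_stp h _ _ _ hx

end

/-- the unit vectors -/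
def one (R : Type*) [CommRing R] : V R := ⟨1, 0, 0, 0, 0, 0, 0, 0, 0, 0, 0, 0, 0, 0⟩

theorem val_one {R B : Type*} [CommRing R] [Ring B] [Algebra R B] (e : ℕ → B) : val e (one R) = 1 := by
  simp [val, one]

end Pool.Agent.U963.JN
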