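import Pool.Agent.U963.JN.Vas

/-!
# Closed braids on four strands as sliced diagrams
-/

set_option autoImplicit false

namespace Pool.Agent.U963.JN

open Pool.Agent.Y466.FT (draw)
open Pool.Agent.H835R2.Knot

/-- the upper half of the closure -/
def births : Word := [.birth 0 true, .birth 1 true, .birth 2 true, .birth 3 true]

/-- the lower half of the closure -/
def deaths : Word := [.death 3, .death 2, .death 1, .death 0]

/-- the closure of a braid word on four strands: the word is drawn from top to bottom on four strands which
are directed downwards, and the strands are closed on the right side -/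
def clo (w : List (Bool × ℕ)) : Word := births ++ draw w ++ deaths

theorem iso1 {x l r y : Word} (m : Move l r) (h1 : Closed (x ++ l ++ y)) (h2 : Closed (x ++ r ++ y)) : 
    Isotopic (x ++ l ++ y) (x ++ r ++ y) := Relation.EqvGen.rel _ _ (Step.mk x l r y m h1 h2)

theorem iso_trans {D E F : Word} (h : Isotopic D E) (h' : Isotopic E F) : Isotopic D F := 
  Relation.EqvGen.trans _ _ _ h h'

theorem iso_symm {D E : Word} (h : Isotopic D E) : Isotopic E D := Relation.EqvGen.symm _ _ h

theorem iso_tl : Isotopic (clo tl) circle := by
  have s1 := iso1 (x := [.birth 0 true, .birth 1 true, .birth 2 true]) 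
    (y := [.pos 1, .pos 2, .death 3, .death 2, .death 1, .death 0]) 
    (Move.exchange (.pos 0) (.birth 3 true) (by decide)) (by decide) (by decide)
  have s2 := iso1 (x := [.birth 0 true, .birth 1 true, .birth 2 true, .pos 0]) 
    (y := [.pos 2, .death 3, .death 2, .death 1, .death 0]) 
    (Move.exchange (.pos 1) (.birth 3 true) (by decide)) (by decide) (by decide)
  have s3 := iso1 (x := [.birth 0 true, .birth 1 true, .birth 2 true, .pos 0, .pos 1, .birth 3 true]) 
    (y := [.death 2, .death 1, .death 0]) 
    (Move.slideDeath₂ 2) (by decide) (by decide)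
  have s4 := iso1 (x := [.birth 0 true, .birth 1 true, .birth 2 true, .pos 0, .pos 1]) 
    (y := [.death 2, .death 2, .death 1, .death 0]) 
    (Move.firstBirthNeg 3 true) (by decide) (by decide)
  have s5 := iso1 (x := [.birth 0 true, .birth 1 true, .birth 2 true, .pos 0, .pos 1]) 
    (y := [.death 2, .death 1, .death 0]) 
    (Move.zigzag₂ 2 false) (by decide) (by decide)
  have s6 := iso1 (x := [.birth 0 true, .birth 1 true]) 
    (y := [.pos 1, .death 2, .death 1, .death 0]) 
    (Move.exchange (.pos 0) (.birth 2 true) (by decide)) (by decide) (by decide)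
  have s7 := iso1 (x := [.birth 0 true, .birth 1 true, .pos 0, .birth 2 true]) 
    (y := [.death 1, .death 0]) 
    (Move.slideDeath₂ 1) (by decide) (by decide)
  have s8 := iso1 (x := [.birth 0 true, .birth 1 true, .pos 0]) 
    (y := [.death 1, .death 1, .death 0]) 
    (Move.firstBirthNeg 2 true) (by decide) (by decide)
  have s9 := iso1 (x := [.birth 0 true, .birth 1 true, .pos 0]) 
    (y := [.death 1, .death 0]) 
    (Move.zigzag₂ 1 false) (by decide) (by decide)
  have s10 := iso1 (x := [.birth 0 true, .birth 1 true]) 
    (y := [.death 0]) 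
    (Move.slideDeath₂ 0) (by decide) (by decide)
  have s11 := iso1 (x := [.birth 0 true]) 
    (y := [.death 0, .death 0]) 
    (Move.firstBirthNeg 1 true) (by decide) (by decide)
  have s12 := iso1 (x := [.birth 0 true]) 
    (y := [.death 0]) 
    (Move.zigzag₂ 0 false) (by decide) (by decide)
  have e1 := iso_symm s1
  have e2 := iso_symm s2
  have e3 := iso_symm s3
  have e6 := iso_symm s6
  have e7 := iso_symm s7
  have e10 := iso_symm s10
  exact iso_trans e1 (iso_trans e2 (iso_trans e3 (iso_trans s4 (iso_trans s5 (iso_trans e6 (iso_trans e7 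
    (iso_trans s8 (iso_trans s9 (iso_trans e10 (iso_trans s11 s12))))))))))

theorem knot_tl : IsKnot (clo tl) := by decide

theorem draw_append' (w w' : List (Bool × ℕ)) : draw (w ++ w') = draw w ++ draw w' := by simp [draw]

theorem knot_clo (m k n : ℕ) : IsKnot (clo (Wn m k n ++ tl)) := by
  have h := knot_insert births (draw tl ++ deaths) 0 (by decide) m k n
  rw [shift_zero] at h
  have e1 : clo (Wn m k n ++ tl) = births ++ draw (Wn m k n) ++ (draw tl ++ deaths) := by
    unfold clo
    rw [draw_append']
    simp only [List.append_assoc]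
  rw [e1]
  refine h.2 ?_
  have e2 : births ++ (draw tl ++ deaths) = clo tl := by
    unfold clo
    simp only [List.append_assoc]
  rw [e2]
  exact knot_tl

theorem vas_clo {A : Type} [AddCommGroup A] {v : Word → A} {d : ℕ} (hv : IsInvariant v) (hd : DegreeLE d v) 
    (m k n : ℕ) (hn : d ≤ 2 * n + 2) : v (clo (Wn m k n ++ tl)) = v circle := by
  have e2 : births ++ (draw tl ++ deaths) = clo tl := by
    unfold clo
    simp only [List.append_assoc]
  have h := insert_eq hv hd births (draw tl ++ deaths) 0 (by decide) m k n hn (by rw [e2]; exact knot_tl)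
  rw [shift_zero, e2] at h
  have e1 : clo (Wn m k n ++ tl) = births ++ draw (Wn m k n) ++ (draw tl ++ deaths) := by
    unfold clo
    rw [draw_append']
    simp only [List.append_assoc]
  rw [e1, h]
  exact hv _ _ knot_tl iso_tl

end Pool.Agent.U963.JN
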