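import Pool.Agent.U963.JN.Words

/-!
# Congruences in the Temperley–Lieb algebra on four strands
-/

set_option autoImplicit false

namespace Pool.Agent.U963.JN

open Pool.Agent.Y463.SK

/-! ### congruences in an algebra -/

section
variable {R B : Type*} [CommRing R] [Ring B] [Algebra R B]

/-- congruence modulo a scalar -/
def Cg (c : R) (x y : B) : Prop := ∃ z : B, x - y = c • z

theorem Cg.refl (c : R) (x : B) : Cg c x x := ⟨0, by simp⟩

theorem Cg.symm {c : R} {x y : B} (h : Cg c x y) : Cg c y x := by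
  obtain ⟨z, hz⟩ := h
  exact ⟨-z, by rw [smul_neg, ← hz, neg_sub]⟩

theorem Cg.trans {c : R} {x y w : B} (h : Cg c x y) (h' : Cg c y w) : Cg c x w := by
  obtain ⟨z, hz⟩ := h
  obtain ⟨z', hz'⟩ := h'
  exact ⟨z + z', by rw [smul_add, ← hz, ← hz', sub_add_sub_cancel]⟩

theorem Cg.mul_left {c : R} {x y : B} (h : Cg c x y) (a : B) : Cg c (a * x) (a * y) := by
  obtain ⟨z, hz⟩ := h
  exact ⟨a * z, by rw [← mul_sub, hz, mul_smul_comm]⟩

theorem Cg.mul_right {c : R} {x y : B} (h : Cg c x y) (a : B) : Cg c (x * a) (y * a) := by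
  obtain ⟨z, hz⟩ := h
  exact ⟨z * a, by rw [← sub_mul, hz, smul_mul_assoc]⟩

theorem Cg.smul {c : R} {x y : B} (h : Cg c x y) (a : R) : Cg c (a • x) (a • y) := by
  obtain ⟨z, hz⟩ := h
  exact ⟨a • z, by rw [← smul_sub, hz, smul_comm]⟩

theorem Cg.dvd {c k : R} {x y : B} (h : Cg c x y) (hk : k ∣ c) : Cg k x y := by
  obtain ⟨z, hz⟩ := h
  obtain ⟨l, rfl⟩ := hk
  exact ⟨l • z, by rw [hz, mul_smul]⟩

/-- commutators multiply the moduli -/
theorem Cg.com {m n : R} {x x' y y' : B} (hx : Cg m x 1) (hy : Cg n y 1) (h1 : x * x' = 1) (h2 : y * y' = 1) :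
    Cg (m * n) (x * y * x' * y') 1 := by
  obtain ⟨u, hu⟩ := hx
  obtain ⟨v, hv⟩ := hy
  refine ⟨(u * v - v * u) * (x' * y'), ?_⟩
  have h3 : x * y - y * x = (x - 1) * (y - 1) - (y - 1) * (x - 1) := by noncomm_ring
  have h4 : y * x * (x' * y') = 1 := by
    rw [mul_assoc, ← mul_assoc x, h1, one_mul, h2]
  calc x * y * x' * y' - 1 = (x * y - y * x) * (x' * y') := by
        rw [sub_mul, h4, ← mul_assoc]
    _ = _ := by
      rw [h3, hu, hv]
      simp only [smul_mul_assoc, mul_smul_comm, smul_smul, mul_comm n m, ← smul_sub]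

/-- the first element is congruent to a unit -/
theorem Cg.comU {m n a a' : R} {x x' y y' : B} (ha : a * a' = 1) (hx : Cg m x (a • 1)) (hy : Cg n y 1) 
    (h1 : x * x' = 1) (h2 : y * y' = 1) : Cg (m * n) (x * y * x' * y') 1 := by
  have ha' : a' * a = 1 := by rw [mul_comm, ha]
  have h3 : Cg m (a' • x) 1 := by
    have := hx.smul a'
    rwa [smul_smul, ha', one_smul] at this
  have h4 := Cg.com h3 hy (x' := a • x') (by rw [smul_mul_smul_comm, ha', one_smul, h1]) h2
  have h5 : a' • x * y * a • x' * y' = x * y * x' * y' := by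
    simp only [smul_mul_assoc, mul_smul_comm, smul_smul, ha, ha', one_smul]
  rwa [h5] at h4

/-- powers of elements which are trivial modulo `p` -/
theorem Cg.pow {p : ℕ} {x : B} (hx : Cg (p : R) x 1) (k : ℕ) : Cg ((p : R) ^ (k+1)) (x ^ (p ^ k)) 1 := by
  obtain ⟨y, hy⟩ := hx
  have h1 : ((p : Polynomial ℤ)) ∣ (1 + (p : Polynomial ℤ) * Polynomial.X) - 1 := 
    ⟨Polynomial.X, by ring⟩
  have h2 := dvd_sub_pow_of_dvd_sub h1 k
  obtain ⟨Q, hQ⟩ := h2
  have h3 := congrArg (Polynomial.aeval y) hQ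
  rw [one_pow, map_sub, map_pow, map_mul, map_add, map_mul, map_pow, map_natCast, map_one, 
    Polynomial.aeval_X] at h3
  refine ⟨Polynomial.aeval y Q, ?_⟩
  have h4 : x = 1 + (p : B) * y := by
    have h5 : x = 1 + (x - 1) := by abel
    rw [h5, hy]
    simp [Algebra.smul_def]
  rw [h4, h3]
  simp [Algebra.smul_def]

end

/-! ### positive words -/

section
variable {R : Type*} [CommSemiring R]

/-- the step for positive words, in the variable `s = A^4`; `c` stands for `-1` -/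
def stq (s c : R) (v : V R) (i : ℕ) : V R :=
  match i with
  | 0 => ⟨s*v.a0, v.a0+c*v.a1+s*v.a4, s*v.a2, s*v.a3, s*v.a4, v.a2+c*v.a5, s*v.a6, s*v.a7, 
      v.a3+c*v.a8+s*(v.a9+v.a11), s*v.a9, v.a7+c*v.a10, s*v.a11, v.a6+c*v.a12+s*v.a13, s*v.a13⟩
  | 1 => ⟨s*v.a0, s*v.a1, v.a0+c*v.a2+s*(v.a5+v.a6), s*v.a3, v.a1+c*v.a4+s*v.a9, s*v.a5, s*v.a6, 
      v.a3+c*v.a7+s*v.a10, s*v.a8, s*v.a9, s*v.a10, v.a8+c*v.a11, s*v.a12, v.a12+c*v.a13⟩
  | _ => ⟨s*v.a0, s*v.a1, s*v.a2, v.a0+c*v.a3+s*v.a7, s*v.a4, s*v.a5, v.a2+c*v.a6, s*v.a7, 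
      v.a1+c*v.a8+s*(v.a10+v.a11), v.a4+c*v.a9, s*v.a10, s*v.a11, v.a5+c*v.a12+s*v.a13, s*v.a13⟩

/-- the action of a positive word -/
def runq (s c : R) : List ℕ → V R → V R
  | [], v => v
  | i :: w, v => runq s c w (stq s c v i)

variable {S : Type*} [CommSemiring S] (f : R →+* S)

theorem map_stq (s c : R) (v : V R) (i : ℕ) : (stq s c v i).map f = stq (f s) (f c) (v.map f) i := by
  match i with
  | 0 => simp [stq, V.map]
  | 1 => simp [stq, V.map]
  | (i+2) => simp [stq, V.map]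

theorem map_runq (s c : R) (w : List ℕ) : ∀ v : V R, 
    (runq s c w v).map f = runq (f s) (f c) w (v.map f) := by
  induction w with
  | nil => intro v; rfl
  | cons x w ih => intro v; rw [runq, ih, runq, map_stq]

end

section
variable {R B : Type*} [CommRing R] [Ring B] [Algebra R B] {A A' : R} {e : ℕ → B}

/-- rescaling -/
def sc (A : R) (v : V R) : V R :=
  ⟨v.a0, A^2*v.a1, A^2*v.a2, A^2*v.a3, A^4*v.a4, A^4*v.a5, A^4*v.a6, A^4*v.a7, A^4*v.a8, A^6*v.a9, A^6*v.a10, 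
   A^6*v.a11, A^6*v.a12, A^8*v.a13⟩

theorem sc_stq (hA : A * A' = 1) (v : V R) (i : ℕ) : 
    sc A (stq (A^4) (-1) v i) = stp (A^4) (A^2) (- A^2 - A'^2) (sc A v) i := by
  have h2 : A^2 * A'^2 = 1 := by rw [← mul_pow, hA, one_pow]
  match i with
  | 0 => 
    simp only [sc, stq, stp, V.mk.injEq]
    refine ⟨?_, ?_, ?_, ?_, ?_, ?_, ?_, ?_, ?_, ?_, ?_, ?_, ?_, ?_⟩ <;> first | trivial | ring1 | linear_combination (A^2*v.a1) * h2 | linear_combination (A^4*v.a5) * h2 | linear_combination (A^4*v.a8) * h2 | linear_combination (A^6*v.a10) * h2 | linear_combination (A^6*v.a12) * h2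
  | 1 => 
    simp only [sc, stq, stp, V.mk.injEq]
    refine ⟨?_, ?_, ?_, ?_, ?_, ?_, ?_, ?_, ?_, ?_, ?_, ?_, ?_, ?_⟩ <;> first | trivial | ring1 | linear_combination (A^2*v.a2) * h2 | linear_combination (A^4*v.a4) * h2 | linear_combination (A^4*v.a7) * h2 | linear_combination (A^6*v.a11) * h2 | linear_combination (A^8*v.a13) * h2
  | (i+2) => 
    simp only [sc, stq, stp, V.mk.injEq]
    refine ⟨?_, ?_, ?_, ?_, ?_, ?_, ?_, ?_, ?_, ?_, ?_, ?_, ?_, ?_⟩ <;> first | trivial | ring1 | linear_combination (A^2*v.a3) * h2 | linear_combination (A^4*v.a6) * h2 | linear_combination (A^4*v.a8) * h2 | linear_combination (A^6*v.a9) * h2 | linear_combination (A^6*v.a12) * h2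

theorem val_runq (hA : A * A' = 1) (h : IsTLr 4 (- A^2 - A'^2) e) (w : List ℕ) : ∀ v : V R, 
    (∀ i ∈ w, i + 1 < 4) → 
    val e (sc A (runq (A^4) (-1) w v)) = (A^3)^w.length • (val e (sc A v) * wd A A' e (pos w)) := by
  induction w with
  | nil => intro v _; simp [runq, pos, wd]
  | cons i w ih =>
    intro v hw
    have hi := hw i List.mem_cons_self
    rw [runq, ih _ (fun j hj => hw j (List.mem_cons_of_mem _ hj)), sc_stq hA, val_stp h _ _ _ hi]
    have h1 : wd A A' e (pos (i :: w)) = ltr A A' e (true, i) * wd A A' e (pos w) := by simp [wd, pos]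
    have h2 : A^4 • (1 : B) + A^2 • e i = A^3 • ltr A A' e (true, i) := by
      have h3 : A^2 = A^3 * A' := by linear_combination (-A^2) * hA
      unfold ltr
      rw [if_pos rfl, smul_add, smul_smul, smul_smul, ← h3]
      congr 2
      ring
    rw [h1, h2, List.length_cons, mul_smul_comm, smul_mul_assoc, smul_smul, ← pow_succ, mul_assoc]

end

end Pool.Agent.U963.JN
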