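import Pool.Agent.Y463.SK.Defs
import Pool.Agent.H835R2.Knot.Defs

/-!
# Braid words on four strands which the Jones polynomial modulo `g` and the Vassiliev invariants do not see
-/

set_option autoImplicit false

namespace Pool.Agent.U963.JN

open LaurentPolynomial Pool.Agent.H891R2.Jones Pool.Agent.W639.RB Pool.Agent.Y463.SK
open Pool.Agent.H835R2.Knot

/-- the word `w` can be inserted before any word `v` in any box with four strands of any oriented link
diagram, and the normalised bracket does not change modulo the ideal `J` -/
def InvisibleMod (J : Ideal ℤ[T;T⁻¹]) (w : List (Letter 4)) : Prop :=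
  ∀ (O : Outer 4) (v : List (Letter 4)), (dia O (w ++ v)).fPoly - (dia O v).fPoly ∈ J

/-- the crossings of a braid word on the strands `j, j + 1, j + 2, j + 3` of a sliced diagram -/
def strip (j : ℕ) (w : List (Letter 4)) : Word :=
  w.map fun x => if x.1 then Piece.pos (x.2 + j) else Piece.neg (x.2 + j)

/-- the word `w` can be inserted into any sliced knot diagram `x y`, in any four neighbouring strands
`j, …, j + 3` at the level between `x` and `y`: the diagram remains a knot diagram and no Vassiliev
invariant of degree at most `d` with values in an abelian group changes its value -/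
def InvisibleVas (d : ℕ) (w : List (Letter 4)) : Prop :=
  ∀ (x y : Word) (j : ℕ), j + 4 ≤ (run x Front.empty).n → IsKnot (x ++ y) → IsKnot (x ++ strip j w ++ y) ∧
    ∀ (G : Type) [AddCommGroup G] (v : Word → G), IsInvariant v → DegreeLE d v → 
      v (x ++ strip j w ++ y) = v (x ++ y)

/-- the sliced diagram of the closure of a braid word on four strands: four maxima, the word from top to
bottom, four minima -/
def closure (w : List (Letter 4)) : Word :=
  [.birth 0 true, .birth 1 true, .birth 2 true, .birth 3 true] ++ strip 0 w ++ 
    [.death 3, .death 2, .death 1, .death 0]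

/-- the word `σ_1 σ_2 σ_3`; its closure is a diagram of the unknot -/
def tail : List (Letter 4) := [(true, 0), (true, 1), (true, 2)]

/-- the normalised brackets of the closures of the words `w σ_1 σ_2 σ_3`, where `w` is a pure braid word on
four strands which is invisible for the normalised bracket modulo `J` and for the Vassiliev invariants of
degree at most `d`, the closure is a diagram of a knot with the Vassiliev invariants of the unknot up to
degree `d`, and its normalised bracket is congruent to `1` modulo `J` -/
def Values (J : Ideal ℤ[T;T⁻¹]) (d : ℕ) : Set ℤ[T;T⁻¹] :=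
  {f | ∃ w : List (Letter 4), IsPure w ∧ InvisibleMod J w ∧ InvisibleVas d w ∧ 
    IsKnot (closure (w ++ tail)) ∧ 
    (∀ (G : Type) [AddCommGroup G] (v : Word → G), IsInvariant v → DegreeLE d v → 
      v (closure (w ++ tail)) = v circle) ∧ 
    f = (dia (braidClosure 4) (w ++ tail)).fPoly ∧ f - 1 ∈ J}

end Pool.Agent.U963.JN
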