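import Pool.Agent.U963.JN.Cong

/-!
# Checking congruences by Kronecker substitution
-/

set_option autoImplicit false

namespace Pool.Agent.U963.JN

open Pool.Agent.Y463.SK Polynomial

/-- comparison of the digits modulo `p` -/
def chk (b p : ℕ) : ℕ → ℕ → ℕ → Bool
  | 0, x, y => x == 0 && y == 0
  | n+1, x, y => (x % b) % p == (y % b) % p && chk b p n (x / b) (y / b)

theorem coeff_mul_le (P : ℕ[X]) (b j : ℕ) : P.coeff j * b ^ j ≤ P.eval b := by
  rw [eval_eq_sum_range]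
  rcases Nat.lt_or_ge P.natDegree j with h | h
  · rw [coeff_eq_zero_of_natDegree_lt h, zero_mul]; exact Nat.zero_le _
  · exact Finset.single_le_sum (f := fun i => P.coeff i * b ^ i) (fun i _ => Nat.zero_le _) 
      (Finset.mem_range.2 (by omega))

theorem eval_split (P : ℕ[X]) (b : ℕ) : P.eval b = P.coeff 0 + b * P.divX.eval b := by
  conv_lhs => rw [← divX_mul_X_add P]
  rw [eval_add, eval_mul, eval_X, eval_C]
  ring

theorem chk_sound {b p : ℕ} : ∀ (n : ℕ) (P Q : ℕ[X]), P.eval 1 < b → Q.eval 1 < b → 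
    chk b p n (P.eval b) (Q.eval b) = true → ∀ j, P.coeff j % p = Q.coeff j % p
  | 0, P, Q, hP, hQ, h, j => by
    simp only [chk, Bool.and_eq_true, beq_iff_eq] at h
    have hb : 0 < b := by omega
    have h1 := coeff_mul_le P b j
    have h2 := coeff_mul_le Q b j
    rw [h.1] at h1
    rw [h.2] at h2
    have hbj : 0 < b ^ j := Nat.pow_pos hb
    have h3 : P.coeff j = 0 := by
      rcases Nat.mul_eq_zero.1 (Nat.le_zero.1 h1) with h | h
      · exact h
      · omega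
    have h4 : Q.coeff j = 0 := by
      rcases Nat.mul_eq_zero.1 (Nat.le_zero.1 h2) with h | h
      · exact h
      · omega
    rw [h3, h4]
  | (n+1), P, Q, hP, hQ, h, j => by
    simp only [chk, Bool.and_eq_true, beq_iff_eq] at h
    have hP1 := eval_split P 1
    have hQ1 := eval_split Q 1
    have hb : 0 < b := by omega
    have hP0 : P.coeff 0 < b := by omega
    have hQ0 : Q.coeff 0 < b := by omega
    have hPm : P.eval b % b = P.coeff 0 := by
      rw [eval_split P b, Nat.add_mul_mod_self_left, Nat.mod_eq_of_lt hP0]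
    have hQm : Q.eval b % b = Q.coeff 0 := by
      rw [eval_split Q b, Nat.add_mul_mod_self_left, Nat.mod_eq_of_lt hQ0]
    have hPd : P.eval b / b = P.divX.eval b := by
      rw [eval_split P b, Nat.add_mul_div_left _ _ hb, Nat.div_eq_of_lt hP0, zero_add]
    have hQd : Q.eval b / b = Q.divX.eval b := by
      rw [eval_split Q b, Nat.add_mul_div_left _ _ hb, Nat.div_eq_of_lt hQ0, zero_add]
    rw [hPm, hQm, hPd, hQd] at h
    rcases j with _ | j
    · exact h.1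
    · have := chk_sound n P.divX Q.divX (by omega) (by omega) h.2 j
      rwa [coeff_divX, coeff_divX] at this

/-- the check for all entries -/
def chkV (b p n : ℕ) (v w : V ℕ) : Bool :=
  chk b p n v.a0 w.a0 && chk b p n v.a1 w.a1 && chk b p n v.a2 w.a2 && chk b p n v.a3 w.a3 && 
  chk b p n v.a4 w.a4 && chk b p n v.a5 w.a5 && chk b p n v.a6 w.a6 && chk b p n v.a7 w.a7 && 
  chk b p n v.a8 w.a8 && chk b p n v.a9 w.a9 && chk b p n v.a10 w.a10 && chk b p n v.a11 w.a11 && 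
  chk b p n v.a12 w.a12 && chk b p n v.a13 w.a13

/-- all entries are small -/
def ltV (b : ℕ) (v : V ℕ) : Bool :=
  Nat.blt v.a0 b && Nat.blt v.a1 b && Nat.blt v.a2 b && Nat.blt v.a3 b && Nat.blt v.a4 b && Nat.blt v.a5 b && 
  Nat.blt v.a6 b && Nat.blt v.a7 b && Nat.blt v.a8 b && Nat.blt v.a9 b && Nat.blt v.a10 b && 
  Nat.blt v.a11 b && Nat.blt v.a12 b && Nat.blt v.a13 b

/-- the first unit vector -/
def oneN : V ℕ := ⟨1, 0, 0, 0, 0, 0, 0, 0, 0, 0, 0, 0, 0, 0⟩

/-- the test -/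
def test (b p n : ℕ) (w1 w2 : List ℕ) : Bool :=
  ltV b (runq 1 (p-1) w1 oneN) && ltV b (runq 1 (p-1) w2 oneN) && 
    chkV b p n (runq b (p-1) w1 oneN) (runq b (p-1) w2 oneN)

/-- the polynomials -/
noncomputable def PP (p : ℕ) (w : List ℕ) : V ℕ[X] := 
  runq X (C (p-1)) w ⟨1, 0, 0, 0, 0, 0, 0, 0, 0, 0, 0, 0, 0, 0⟩

theorem PP_eval (b p : ℕ) (w : List ℕ) : (PP p w).map (fun P => P.eval b) = runq b (p-1) w oneN := by
  have h := map_runq (evalRingHom b) (X : ℕ[X]) (C (p-1)) w ⟨1, 0, 0, 0, 0, 0, 0, 0, 0, 0, 0, 0, 0, 0⟩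
  have h1 : (⟨1, 0, 0, 0, 0, 0, 0, 0, 0, 0, 0, 0, 0, 0⟩ : V ℕ[X]).map (evalRingHom b) = oneN := by
    simp [V.map, oneN]
  rw [h1, coe_evalRingHom, eval_X, eval_C] at h
  exact h

section
variable {R : Type*} [CommRing R]

theorem eval₂_eq_of {p : ℕ} (hp : (p : R) = 0) {P Q : ℕ[X]} (h : ∀ j, P.coeff j % p = Q.coeff j % p) (s : R) : 
    P.eval₂ (Nat.castRingHom R) s = Q.eval₂ (Nat.castRingHom R) s := by
  have key : ∀ n : ℕ, (n : R) = ((n % p : ℕ) : R) := by
    intro n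
    conv_lhs => rw [← Nat.div_add_mod n p]
    rw [Nat.cast_add, Nat.cast_mul, hp, zero_mul, zero_add]
  have h1 : P.map (Nat.castRingHom R) = Q.map (Nat.castRingHom R) := by
    ext j
    rw [coeff_map, coeff_map]
    show ((P.coeff j : ℕ) : R) = ((Q.coeff j : ℕ) : R)
    rw [key, h j, ← key]
  rw [← eval_map, h1, eval_map]

theorem test_sound {b p n : ℕ} (hp1 : 1 ≤ p) {w1 w2 : List ℕ} (h : test b p n w1 w2 = true) 
    (hp : (p : R) = 0) (s : R) : runq s (-1) w1 (one R) = runq s (-1) w2 (one R) := by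
  have hev : ∀ w : List ℕ, runq s (-1) w (one R) = (PP p w).map (fun P => P.eval₂ (Nat.castRingHom R) s) := by
    intro w
    have h := map_runq (eval₂RingHom (Nat.castRingHom R) s) (X : ℕ[X]) (C (p-1)) w 
      ⟨1, 0, 0, 0, 0, 0, 0, 0, 0, 0, 0, 0, 0, 0⟩
    have h1 : (⟨1, 0, 0, 0, 0, 0, 0, 0, 0, 0, 0, 0, 0, 0⟩ : V ℕ[X]).map (eval₂RingHom (Nat.castRingHom R) s) = 
        one R := by
      simp [V.map, one]
    have h2 : (((p - 1 : ℕ)) : R) = -1 := by
      rw [Nat.cast_sub hp1, hp, Nat.cast_one, zero_sub]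
    rw [h1, coe_eval₂RingHom, eval₂_X, eval₂_C] at h
    have h3 : (Nat.castRingHom R) (p - 1) = -1 := h2
    rw [h3] at h
    exact h.symm
  unfold test at h
  rw [Bool.and_eq_true, Bool.and_eq_true, ← PP_eval, ← PP_eval, ← PP_eval, ← PP_eval] at h
  obtain ⟨⟨h1, h2⟩, h3⟩ := h
  rw [hev, hev]
  generalize PP p w1 = v at *
  generalize PP p w2 = w at *
  simp only [ltV, V.map, Bool.and_eq_true, Nat.blt_eq] at h1 h2
  simp only [chkV, V.map, Bool.and_eq_true] at h3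
  simp only [V.map, V.mk.injEq]
  obtain ⟨⟨⟨⟨⟨⟨⟨⟨⟨⟨⟨⟨⟨a0, a1⟩, a2⟩, a3⟩, a4⟩, a5⟩, a6⟩, a7⟩, a8⟩, a9⟩, a10⟩, a11⟩, a12⟩, a13⟩ := h1
  obtain ⟨⟨⟨⟨⟨⟨⟨⟨⟨⟨⟨⟨⟨b0, b1⟩, b2⟩, b3⟩, b4⟩, b5⟩, b6⟩, b7⟩, b8⟩, b9⟩, b10⟩, b11⟩, b12⟩, b13⟩ := h2
  obtain ⟨⟨⟨⟨⟨⟨⟨⟨⟨⟨⟨⟨⟨c0, c1⟩, c2⟩, c3⟩, c4⟩, c5⟩, c6⟩, c7⟩, c8⟩, c9⟩, c10⟩, c11⟩, c12⟩, c13⟩ := h3
  exact ⟨eval₂_eq_of hp (chk_sound n _ _ a0 b0 c0) s, eval₂_eq_of hp (chk_sound n _ _ a1 b1 c1) s, 
    eval₂_eq_of hp (chk_sound n _ _ a2 b2 c2) s, eval₂_eq_of hp (chk_sound n _ _ a3 b3 c3) s, 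
    eval₂_eq_of hp (chk_sound n _ _ a4 b4 c4) s, eval₂_eq_of hp (chk_sound n _ _ a5 b5 c5) s, 
    eval₂_eq_of hp (chk_sound n _ _ a6 b6 c6) s, eval₂_eq_of hp (chk_sound n _ _ a7 b7 c7) s, 
    eval₂_eq_of hp (chk_sound n _ _ a8 b8 c8) s, eval₂_eq_of hp (chk_sound n _ _ a9 b9 c9) s, 
    eval₂_eq_of hp (chk_sound n _ _ a10 b10 c10) s, eval₂_eq_of hp (chk_sound n _ _ a11 b11 c11) s, 
    eval₂_eq_of hp (chk_sound n _ _ a12 b12 c12) s, eval₂_eq_of hp (chk_sound n _ _ a13 b13 c13) s⟩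

/-- `v + a w` -/
def lin2 (a : R) (v w : V R) : V R :=
  ⟨v.a0+a*w.a0, v.a1+a*w.a1, v.a2+a*w.a2, v.a3+a*w.a3, v.a4+a*w.a4, v.a5+a*w.a5, v.a6+a*w.a6, v.a7+a*w.a7,
   v.a8+a*w.a8, v.a9+a*w.a9, v.a10+a*w.a10, v.a11+a*w.a11, v.a12+a*w.a12, v.a13+a*w.a13⟩

theorem map_runq' {S : Type*} [CommRing S] (f : R →+* S) (s : R) (w : List ℕ) : 
    (runq s (-1) w (one R)).map f = runq (f s) (-1) w (one S) := by
  rw [map_runq]
  simp [V.map, one]

theorem lin_of_quot (c : R) (v w : V R) 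
    (h1 : v.map (Ideal.Quotient.mk (Ideal.span {c})) = w.map (Ideal.Quotient.mk (Ideal.span {c}))) : 
    ∃ r : V R, v = lin2 c w r := by
  have key : ∀ x y : R, Ideal.Quotient.mk (Ideal.span {c}) x = Ideal.Quotient.mk (Ideal.span {c}) y → 
      ∃ r, x = y + c * r := by
    intro x y hxy
    rw [Ideal.Quotient.eq, Ideal.mem_span_singleton'] at hxy
    obtain ⟨r, hr⟩ := hxy
    exact ⟨r, by rw [mul_comm, hr]; ring⟩
  simp only [V.map, V.mk.injEq] at h1
  obtain ⟨a0, a1, a2, a3, a4, a5, a6, a7, a8, a9, a10, a11, a12, a13⟩ := h1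
  obtain ⟨r0, h0⟩ := key _ _ a0
  obtain ⟨r1, h1⟩ := key _ _ a1
  obtain ⟨r2, h2⟩ := key _ _ a2
  obtain ⟨r3, h3⟩ := key _ _ a3
  obtain ⟨r4, h4⟩ := key _ _ a4
  obtain ⟨r5, h5⟩ := key _ _ a5
  obtain ⟨r6, h6⟩ := key _ _ a6
  obtain ⟨r7, h7⟩ := key _ _ a7
  obtain ⟨r8, h8⟩ := key _ _ a8
  obtain ⟨r9, h9⟩ := key _ _ a9
  obtain ⟨r10, h10⟩ := key _ _ a10
  obtain ⟨r11, h11⟩ := key _ _ a11
  obtain ⟨r12, h12⟩ := key _ _ a12
  obtain ⟨r13, h13⟩ := key _ _ a13
  refine ⟨⟨r0, r1, r2, r3, r4, r5, r6, r7, r8, r9, r10, r11, r12, r13⟩, ?_⟩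
  cases v
  simp only at h0 h1 h2 h3 h4 h5 h6 h7 h8 h9 h10 h11 h12 h13
  simp only [lin2, V.mk.injEq]
  exact ⟨h0, h1, h2, h3, h4, h5, h6, h7, h8, h9, h10, h11, h12, h13⟩

theorem exists_lin {b p n : ℕ} (hp1 : 1 ≤ p) {w1 w2 : List ℕ} (h : test b p n w1 w2 = true) (s : R) : 
    ∃ r : V R, runq s (-1) w1 (one R) = lin2 (p : R) (runq s (-1) w2 (one R)) r := by
  have h0 : ((p : ℕ) : R ⧸ Ideal.span {(p : R)}) = 0 := by
    rw [← map_natCast (Ideal.Quotient.mk (Ideal.span {(p : R)})), Ideal.Quotient.eq_zero_iff_mem]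
    exact Ideal.mem_span_singleton_self _
  have h1 := test_sound hp1 h h0 (Ideal.Quotient.mk (Ideal.span {(p : R)}) s)
  rw [← map_runq', ← map_runq'] at h1
  exact lin_of_quot _ _ _ h1

/-- evaluation of a positive word at `A^4 = -1` -/
theorem exists_lin' {w : List ℕ} (h : runq (-1 : ℤ) (-1) w (one ℤ) = one ℤ) (s : R) : 
    ∃ r : V R, runq s (-1) w (one R) = lin2 (s + 1) (one R) r := by
  apply lin_of_quot
  rw [map_runq']
  have h0 : Ideal.Quotient.mk (Ideal.span {s + 1}) s = -1 := by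
    have h1 : Ideal.Quotient.mk (Ideal.span {s + 1}) (s + 1) = 0 := by
      rw [Ideal.Quotient.eq_zero_iff_mem]
      exact Ideal.mem_span_singleton_self _
    rw [map_add, map_one] at h1
    exact eq_neg_of_add_eq_zero_left h1
  have h2 := map_runq' (Int.castRingHom (R ⧸ Ideal.span {s + 1})) (-1) w
  rw [h, map_neg, map_one] at h2
  rw [h0, ← h2]
  simp [one, V.map]

variable {B : Type*} [Ring B] [Algebra R B] {A A' : R} {e : ℕ → B}

theorem val_lin2 (a : R) (v w : V R) : val e (sc A (lin2 a v w)) = val e (sc A v) + a • val e (sc A w) := by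
  simp only [val, sc, lin2]
  module

theorem Cg_word (hA : A * A' = 1) (h : IsTLr 4 (- A^2 - A'^2) e) {b p n : ℕ} (hp1 : 1 ≤ p) {w1 w2 : List ℕ} 
    (ht : test b p n w1 w2 = true) (hlen : w1.length = w2.length) 
    (h1 : ∀ i ∈ w1, i + 1 < 4) (h2 : ∀ i ∈ w2, i + 1 < 4) : 
    Cg (p : R) (wd A A' e (pos w1)) (wd A A' e (pos w2)) := by
  obtain ⟨r, hr⟩ := exists_lin hp1 ht (A^4)
  have e1 := val_runq hA h w1 (one R) h1
  have e2 := val_runq hA h w2 (one R) h2
  have e0 : val e (sc A (one R)) = 1 := by simp [val, sc, one]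
  rw [hr, val_lin2, e2, e0, one_mul, one_mul, ← hlen] at e1
  have hAn : (A'^3)^w1.length * (A^3)^w1.length = 1 := by
    rw [← mul_pow, ← mul_pow, mul_comm A', hA, one_pow, one_pow]
  refine ⟨(A'^3)^w1.length • val e (sc A r), ?_⟩
  have e3 : (A^3)^w1.length • (wd A A' e (pos w1) - wd A A' e (pos w2)) = (p : R) • val e (sc A r) := by
    rw [smul_sub, ← e1]
    abel
  have e4 : (A'^3)^w1.length • ((A^3)^w1.length • (wd A A' e (pos w1) - wd A A' e (pos w2))) = 
      wd A A' e (pos w1) - wd A A' e (pos w2) := by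
    rw [smul_smul, hAn, one_smul]
  rw [← e4, e3, smul_comm]

/-- words which are trivial at `A^4 = -1` -/
theorem Cg_word' (hA : A * A' = 1) (h : IsTLr 4 (- A^2 - A'^2) e) {w : List ℕ} 
    (ht : runq (-1 : ℤ) (-1) w (one ℤ) = one ℤ) (h1 : ∀ i ∈ w, i + 1 < 4) : 
    Cg (A^4 + 1) (wd A A' e (pos w)) ((A'^3)^w.length • 1) := by
  obtain ⟨r, hr⟩ := exists_lin' ht (A^4)
  have e1 := val_runq hA h w (one R) h1
  have e0 : val e (sc A (one R)) = 1 := by simp [val, sc, one]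
  rw [hr, val_lin2, e0, one_mul] at e1
  have hAn : (A'^3)^w.length * (A^3)^w.length = 1 := by
    rw [← mul_pow, ← mul_pow, mul_comm A', hA, one_pow, one_pow]
  refine ⟨(A'^3)^w.length • val e (sc A r), ?_⟩
  have e4 : (A'^3)^w.length • ((A^3)^w.length • wd A A' e (pos w)) = wd A A' e (pos w) := by
    rw [smul_smul, hAn, one_smul]
  rw [← e4, ← e1, smul_add, add_sub_cancel_left, smul_comm]

/-- the inverse letters -/
theorem ltr_inv (hA : A * A' = 1) {m : ℕ} (h : IsTLr m (- A^2 - A'^2) e) (x : Bool × ℕ) (hx : x.2 + 1 < m) : 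
    ltr A A' e x * ltr A A' e (!x.1, x.2) = 1 := by
  have h1 := h.sq x.2 hx
  have hA' : A' * A = 1 := by rw [mul_comm, hA]
  obtain ⟨b, i⟩ := x
  have key : (A • (1 : B) + A' • e i) * (A' • (1 : B) + A • e i) = 1 ∧ 
      (A' • (1 : B) + A • e i) * (A • (1 : B) + A' • e i) = 1 := by
    simp only at h1
    have hz : A * A + A' * A' + 1 * (- A^2 - A'^2) = 0 := by ring
    constructor
    · calc _ = (A * A') • (1 : B) + (A * A + A' * A' + (A' * A) * (- A^2 - A'^2)) • e i := by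
            simp only [add_mul, mul_add, smul_mul_assoc, mul_smul_comm, one_mul, mul_one, h1]
            module
        _ = 1 := by rw [hA, hA', hz, zero_smul, add_zero, one_smul]
    · calc _ = (A * A') • (1 : B) + (A * A + A' * A' + (A' * A) * (- A^2 - A'^2)) • e i := by
            simp only [add_mul, mul_add, smul_mul_assoc, mul_smul_comm, one_mul, mul_one, h1]
            module
        _ = 1 := by rw [hA, hA', hz, zero_smul, add_zero, one_smul]
  cases b
  · simpa [ltr] using key.2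
  · simpa [ltr] using key.1

theorem wd_inv (hA : A * A' = 1) {m : ℕ} (h : IsTLr m (- A^2 - A'^2) e) (w : List (Bool × ℕ)) 
    (hw : ∀ x ∈ w, x.2 + 1 < m) : wd A A' e w * wd A A' e (invL w) = 1 := by
  induction w with
  | nil => simp [wd, invL]
  | cons x w ih =>
    have h1 : invL (x :: w) = invL w ++ [(!x.1, x.2)] := by simp [invL]
    have h2 : wd A A' e (x :: w) = ltr A A' e x * wd A A' e w := by simp [wd]
    have h3 : wd A A' e [(!x.1, x.2)] = ltr A A' e (!x.1, x.2) := by simp [wd]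
    rw [h1, wd_append, h2, h3, mul_assoc, ← mul_assoc (wd A A' e w), 
      ih (fun y hy => hw y (List.mem_cons_of_mem _ hy)), one_mul, ltr_inv hA h x (hw x List.mem_cons_self)]

theorem invL_invL (w : List (Bool × ℕ)) : invL (invL w) = w := by
  simp [invL, List.map_reverse, List.map_map, Function.comp_def]

theorem invL_lt {m : ℕ} {w : List (Bool × ℕ)} (hw : ∀ x ∈ w, x.2 + 1 < m) : ∀ x ∈ invL w, x.2 + 1 < m := by
  intro x hx
  unfold invL at hx
  rw [List.mem_reverse, List.mem_map] at hx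
  obtain ⟨y, hy, rfl⟩ := hx
  exact hw y hy

theorem wd_inv' (hA : A * A' = 1) {m : ℕ} (h : IsTLr m (- A^2 - A'^2) e) (w : List (Bool × ℕ)) 
    (hw : ∀ x ∈ w, x.2 + 1 < m) : wd A A' e (invL w) * wd A A' e w = 1 := by
  have := wd_inv hA h (invL w) (invL_lt hw)
  rwa [invL_invL] at this

/-- **The commutators with `σ_1^2 σ_3^{-2}`** -/
theorem Cg_com (hA : A * A' = 1) (h : IsTLr 4 (- A^2 - A'^2) e) {b p n : ℕ} (hp1 : 1 ≤ p) {y : List ℕ} 
    (ht : test b p n ([2, 2] ++ y ++ [0, 0]) ([0, 0] ++ y ++ [2, 2]) = true) (hy : ∀ i ∈ y, i + 1 < 4) : 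
    Cg (p : R) (wd A A' e (com (pos y) gam)) 1 := by
  have h0 := Cg_word hA h hp1 ht (by simp) (by 
    intro i hi
    simp only [List.mem_append, List.mem_cons, List.not_mem_nil, or_false] at hi
    rcases hi with (hi | hi) | hi
    · omega
    · exact hy i hi
    · omega) (by 
    intro i hi
    simp only [List.mem_append, List.mem_cons, List.not_mem_nil, or_false] at hi
    rcases hi with (hi | hi) | hi
    · omega
    · exact hy i hi
    · omega)
  have hyl : ∀ x ∈ pos y, x.2 + 1 < 4 := by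
    intro x hx
    obtain ⟨i, hi, rfl⟩ := List.mem_map.1 hx
    exact hy i hi
  have hpos : ∀ u v : List ℕ, pos (u ++ v) = pos u ++ pos v := by intro u v; simp [pos]
  have hcc : ltr A A' e (true, 2) * ltr A A' e (false, 2) = 1 := ltr_inv hA h (true, 2) (by norm_num)
  have hcc' : ltr A A' e (false, 2) * ltr A A' e (true, 2) = 1 := ltr_inv hA h (false, 2) (by norm_num)
  have hac : ltr A A' e (true, 0) * ltr A A' e (false, 2) = ltr A A' e (false, 2) * ltr A A' e (true, 0) := by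
    have h8 := h.far 0 2 (by omega) (by omega)
    simp only [ltr, if_true, Bool.false_eq_true, if_false]
    simp only [add_mul, mul_add, smul_mul_assoc, mul_smul_comm, one_mul, mul_one, h8]
    module
  have hβ := wd_inv hA h (pos y) hyl
  have hgl : ∀ x ∈ gam, x.2 + 1 < 4 := by decide
  have hγ := wd_inv hA h gam hgl
  set β := wd A A' e (pos y)
  set β' := wd A A' e (invL (pos y))
  set a := ltr A A' e (true, 0)
  set c := ltr A A' e (true, 2)
  set c' := ltr A A' e (false, 2)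
  have w0 : wd A A' e (pos [0, 0]) = a * a := by simp [wd, pos, a]
  have w2 : wd A A' e (pos [2, 2]) = c * c := by simp [wd, pos, c]
  have wg : wd A A' e gam = a * a * c' * c' := by simp [wd, gam, a, c', mul_assoc]
  rw [hpos, hpos, hpos, hpos, wd_append, wd_append, wd_append, wd_append, w0, w2] at h0
  have h1 := (h0.mul_left (c' * c')).mul_right (c' * c')
  have e1 : c' * c' * (c * c * β * (a * a)) * (c' * c') = β * wd A A' e gam := by
    rw [wg]
    calc _ = c' * (c' * c) * c * β * (a * a) * (c' * c') := by noncomm_ring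
      _ = _ := by rw [hcc', mul_one, hcc', one_mul]; noncomm_ring
  have e2 : c' * c' * (a * a * β * (c * c)) * (c' * c') = wd A A' e gam * β := by
    rw [wg]
    calc _ = c' * c' * (a * a) * β * (c * (c * c') * c') := by noncomm_ring
      _ = c' * c' * (a * a) * β := by rw [hcc, mul_one, hcc, mul_one]
      _ = _ := by
        have hcm : Commute a c' := hac
        have f1 : c' * c' * (a * a) = a * a * (c' * c') := 
          ((hcm.mul_left hcm).mul_right (hcm.mul_left hcm)).eq.symm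
        rw [f1]
        simp only [mul_assoc]
  rw [e1, e2] at h1
  have h2 := (h1.mul_right β').mul_right (wd A A' e (invL gam))
  unfold com
  rw [wd_append, wd_append, wd_append]
  refine h2.trans ?_
  rw [mul_assoc (wd A A' e gam) β β', hβ, mul_one, hγ]
  exact Cg.refl _ _

end

/-! ### the tests -/

set_option maxRecDepth 100000

theorem tz : runq (-1 : ℤ) (-1) zp (one ℤ) = one ℤ := by decide +kernel

theorem t2 : test (2^80) 2 40 ([2, 2] ++ y2 ++ [0, 0]) ([0, 0] ++ y2 ++ [2, 2]) = true := by decide +kernel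
theorem t3 : test (2^200) 3 80 ([2, 2] ++ y3 ++ [0, 0]) ([0, 0] ++ y3 ++ [2, 2]) = true := by decide +kernel
theorem t5 : test (2^700) 5 220 ([2, 2] ++ y5 ++ [0, 0]) ([0, 0] ++ y5 ++ [2, 2]) = true := by decide +kernel

end Pool.Agent.U963.JN
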