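import Pool.Agent.U963.JN.Poly
import Pool.Agent.U963.JN.Clo
import Pool.Agent.U963.JN.Defs

/-!
# The main theorem
-/

set_option autoImplicit false

namespace Pool.Agent.U963.JN

open Finset LaurentPolynomial Pool.Agent.H891R2.Jones Pool.Agent.W639.RB Pool.Agent.Y463.SK Pool.Agent.Y463.MP
open Pool.Agent.H835R2.Knot (Word Front IsKnot IsInvariant DegreeLE circle)

theorem exists_toN (W : List (Bool × ℕ)) (h : ∀ x ∈ W, x.2 + 1 < 4) : ∃ w : List (Letter 4), toN w = W := by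
  induction W with
  | nil => exact ⟨[], rfl⟩
  | cons x W ih =>
    obtain ⟨w, hw⟩ := ih (fun y hy => h y (List.mem_cons_of_mem _ hy))
    refine ⟨(x.1, ⟨x.2, by have := h x List.mem_cons_self; omega⟩) :: w, ?_⟩
    show _ :: toN w = _
    rw [hw]

theorem toN_tail : toN tail = tl := rfl

theorem pure_of {w : List (Letter 4)} (h : permL (toN w) = 1) : IsPure w := by
  apply Equiv.ext
  intro i
  apply Fin.ext
  rw [← (permL_toN w).1 i, h]
  rfl

theorem strip_eq (j : ℕ) (w : List (Letter 4)) : strip j w = Pool.Agent.Y466.FT.draw (shift j (toN w)) := by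
  unfold strip Pool.Agent.Y466.FT.draw shift toN
  rw [List.map_map, List.map_map]
  rfl

theorem closure_eq (w : List (Letter 4)) : closure w = clo (toN w) := by
  unfold closure clo
  rw [strip_eq, shift_zero]
  rfl

theorem smooth_dvd (N : ℕ) : N ≠ 0 → (∀ p : ℕ, p.Prime → p ∣ N → p ≤ 5) → ∃ K, N ∣ 30 ^ K := by
  induction N using Nat.recOnMul with
  | zero => intro h; exact absurd rfl h
  | one => intro _ _; exact ⟨0, one_dvd _⟩
  | prime p hp =>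
    intro _ h
    have h1 := h p hp dvd_rfl
    have h2 := hp.two_le
    refine ⟨1, ?_⟩
    interval_cases p
    · decide
    · decide
    · exact absurd hp (by decide)
    · decide
  | mul a b iha ihb =>
    intro hab h
    obtain ⟨K, hK⟩ := iha (left_ne_zero_of_mul hab) (fun p hp hd => h p hp (hd.mul_right b))
    obtain ⟨L, hL⟩ := ihb (right_ne_zero_of_mul hab) (fun p hp hd => h p hp (hd.mul_left a))
    exact ⟨K + L, by rw [pow_add]; exact mul_dvd_mul hK hL⟩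

/-- a non-zero Laurent polynomial is divisible by finitely many powers of `30` only -/
theorem exists_not_dvd {g : ℤ[T;T⁻¹]} (hg : g ≠ 0) : ∃ K, ∀ L, K ≤ L → ¬ (30 : ℤ[T;T⁻¹]) ^ L ∣ g := by
  have h1 : ∃ j, g.coeff j ≠ 0 := by
    by_contra hc
    push Not at hc
    apply hg
    ext j
    exact hc j
  obtain ⟨j, hj⟩ := h1
  refine ⟨(g.coeff j).natAbs, fun L hL hd => ?_⟩
  obtain ⟨h, hh⟩ := hd
  have e1 : (30 : ℤ[T;T⁻¹]) ^ L * h = (30 ^ L : ℤ) • h := by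
    rw [zsmul_eq_mul]
    push_cast
    rfl
  have e2 : g.coeff j = 30 ^ L * h.coeff j := by
    rw [hh, e1, AddMonoidAlgebra.coeff_smul, Finsupp.smul_apply, smul_eq_mul]
  have h3 : (30 ^ L : ℤ) ∣ g.coeff j := ⟨_, e2⟩
  have h4 := Int.natAbs_dvd_natAbs.2 h3
  have h5 := Nat.le_of_dvd (Int.natAbs_pos.2 hj) h4
  rw [Int.natAbs_pow] at h5
  have h6 : L < 30 ^ L := Nat.lt_pow_self (by norm_num)
  have h7 : (30 : ℤ).natAbs = 30 := rfl
  rw [h7] at h5
  omega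

theorem T_sub_dvd (a b : ℕ) : (T (a : ℤ) - 1 : ℤ[T;T⁻¹]) ∣ T ((a * b : ℕ) : ℤ) - 1 := by
  have h : (T ((a * b : ℕ) : ℤ) : ℤ[T;T⁻¹]) = (T (a : ℤ)) ^ b := by
    rw [T_pow]
    congr 1
    push_cast
    ring
  rw [h]
  have := sub_dvd_pow_sub_pow (T (a : ℤ) : ℤ[T;T⁻¹]) 1 b
  rwa [one_pow] at this

/-- one word -/
theorem exists_word {N m : ℕ} (hm : 0 < m) (n d K : ℕ) (hK : N ∣ 30 ^ K) : 
    ∃ w : List (Letter 4), IsPure w ∧ InvisibleMod (Ideal.span {(N : ℤ[T;T⁻¹]) * (T (4 * m) - 1) ^ n}) w ∧ 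
      InvisibleVas d w ∧ IsKnot (closure (w ++ tail)) ∧ 
      (∀ (G : Type) [AddCommGroup G] (v : Word → G), IsInvariant v → DegreeLE d v → 
        v (closure (w ++ tail)) = v circle) ∧ 
      (dia (braidClosure 4) (w ++ tail)).fPoly ≠ 1 ∧ 
      (dia (braidClosure 4) (w ++ tail)).fPoly - 1 ∈ Ideal.span {(N : ℤ[T;T⁻¹]) * (T (4 * m) - 1) ^ n} ∧ 
      (30 : ℤ[T;T⁻¹]) ^ K ∣ (dia (braidClosure 4) (w ++ tail)).fPoly - 1 := by
  obtain ⟨M, hM1, hM2⟩ : ∃ M : ℕ, m ∣ M ∧ 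
      (draw (braidClosure 4) (Wn M K (n + d) ++ tl)).close.fPoly ≠ 1 := by
    by_contra hc
    push Not at hc
    have h1 : (Set.range fun j : ℕ => m * j).Finite := 
      (finite_trivial K (n + d)).subset (by rintro _ ⟨j, rfl⟩; exact hc _ (dvd_mul_right m j))
    have h2 : (Set.range fun j : ℕ => m * j).Infinite := 
      Set.infinite_range_of_injective (fun a b h => Nat.eq_of_mul_eq_mul_left hm h)
    exact h2 h1
  obtain ⟨w, hw⟩ := exists_toN (Wn M K (n + d)) (good_Wn M K (n + d)).lt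
  obtain ⟨b, rfl⟩ := hM1
  have hmod : ∀ O : Outer 4, ∀ v : List (Letter 4), 
      (30 : ℤ[T;T⁻¹]) ^ (36 * K + 1) * (T (8 * (m * b : ℕ)) - 1) ^ (n + d) ∣ 
        (dia O (w ++ v)).fPoly - (dia O v).fPoly := by
    intro O v
    have h := local_cong (good_Wn (m * b) K (n + d)).lt (cg_Wn (m * b) K (n + d)) (cost_Wn (m * b) K (n + d)) 
      (toN v) (toN_lt v) (good_Wn (m * b) K (n + d)).pure O
    rw [← hw, ← toN_append] at h
    exact h
  have hdv1 : (30 : ℤ[T;T⁻¹]) ^ K ∣ (30 : ℤ[T;T⁻¹]) ^ (36 * K + 1) * (T (8 * (m * b : ℕ)) - 1) ^ (n + d) := 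
    (pow_dvd_pow _ (by omega)).mul_right _
  have hdv2 : (N : ℤ[T;T⁻¹]) * (T (4 * m) - 1) ^ n ∣ 
      (30 : ℤ[T;T⁻¹]) ^ (36 * K + 1) * (T (8 * (m * b : ℕ)) - 1) ^ (n + d) := by
    refine mul_dvd_mul ?_ ((pow_dvd_pow_of_dvd ?_ n).trans (pow_dvd_pow _ (Nat.le_add_right n d)))
    · have h1 : (N : ℤ[T;T⁻¹]) ∣ ((30 ^ K : ℕ) : ℤ[T;T⁻¹]) := Nat.cast_dvd_cast hK
      rw [Nat.cast_pow] at h1
      exact h1.trans (pow_dvd_pow _ (by omega))
    · have h1 := T_sub_dvd (4 * m) (2 * b)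
      have e1 : ((4 * m : ℕ) : ℤ) = 4 * (m : ℤ) := by push_cast; ring
      have e2 : ((4 * m * (2 * b) : ℕ) : ℤ) = 8 * ((m * b : ℕ) : ℤ) := by push_cast; ring
      rw [e1, e2] at h1
      exact h1
  have hcl : (dia (braidClosure 4) tail).fPoly = 1 := fPoly_tl
  have hval : (dia (braidClosure 4) (w ++ tail)).fPoly = 
      (draw (braidClosure 4) (Wn (m * b) K (n + d) ++ tl)).close.fPoly := by
    show (draw (braidClosure 4) (toN (w ++ tail))).close.fPoly = _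
    rw [toN_append, hw, toN_tail]
  have h1 := hmod (braidClosure 4) tail
  rw [hcl] at h1
  refine ⟨w, pure_of (by rw [hw]; exact (good_Wn (m * b) K (n + d)).pure), 
    fun O v => Ideal.mem_span_singleton.2 (hdv2.trans (hmod O v)), ?_, ?_, ?_, ?_, 
    Ideal.mem_span_singleton.2 (hdv2.trans h1), hdv1.trans h1⟩
  · intro x y j hj hk
    rw [strip_eq, hw]
    exact ⟨(knot_insert x y j hj (m * b) K (n + d)).2 hk, fun G _ v hv hd => 
      insert_eq hv hd x y j hj (m * b) K (n + d) (by omega) hk⟩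
  · rw [closure_eq, toN_append, hw, toN_tail]
    exact knot_clo (m * b) K (n + d)
  · intro G _ v hv hd
    rw [closure_eq, toN_append, hw, toN_tail]
    exact vas_clo hv hd (m * b) K (n + d) (by omega)
  · rw [hval]
    exact hM2

/-- **The main theorem.** -/
theorem values_infinite (N : ℕ) (hN0 : N ≠ 0) (hN : ∀ p : ℕ, p.Prime → p ∣ N → p ≤ 5) (m n d : ℕ) (hm : 0 < m) : 
    (Values (Ideal.span {(N : ℤ[T;T⁻¹]) * (T (4 * m) - 1) ^ n}) d).Infinite := by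
  intro hfin
  obtain ⟨K₀, hK₀⟩ := smooth_dvd N hN0 hN
  have h1 : ∀ f : ℤ[T;T⁻¹], ∃ K, f ≠ 1 → ∀ L, K ≤ L → ¬ (30 : ℤ[T;T⁻¹]) ^ L ∣ f - 1 := by
    intro f
    by_cases hf : f = 1
    · exact ⟨0, fun h => absurd hf h⟩
    · obtain ⟨K, hK⟩ := exists_not_dvd (sub_ne_zero.2 hf)
      exact ⟨K, fun _ => hK⟩
  choose κ hκ using h1
  obtain ⟨w, hp, hi, hv, hk, hc, hne, hd, hd30⟩ := exists_word hm n d (K₀ + hfin.toFinset.sup κ) 
    (hK₀.trans (pow_dvd_pow _ (Nat.le_add_right _ _)))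
  have hmem : (dia (braidClosure 4) (w ++ tail)).fPoly ∈ 
    Values (Ideal.span {(N : ℤ[T;T⁻¹]) * (T (4 * m) - 1) ^ n}) d := ⟨w, hp, hi, hv, hk, hc, rfl, hd⟩
  have hle : κ (dia (braidClosure 4) (w ++ tail)).fPoly ≤ hfin.toFinset.sup κ := 
    Finset.le_sup (hfin.mem_toFinset.2 hmem)
  exact hκ _ hne _ (by omega) hd30

theorem Values_mono {I J : Ideal ℤ[T;T⁻¹]} (h : I ≤ J) (d : ℕ) : Values I d ⊆ Values J d := by
  rintro f ⟨w, hp, hi, hv, hk, hc, hf, hd⟩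
  exact ⟨w, hp, fun O v => h (hi O v), hv, hk, hc, hf, h hd⟩

/-- modulo an ideal of finite index, `A` has finite order -/
theorem exists_order (I : Ideal ℤ[T;T⁻¹]) [Finite (ℤ[T;T⁻¹] ⧸ I)] : 
    ∃ m : ℕ, 0 < m ∧ (T (4 * m) - 1 : ℤ[T;T⁻¹]) ∈ I := by
  let u : (ℤ[T;T⁻¹])ˣ := ⟨T 4, T (-4), by rw [← T_add]; norm_num, by rw [← T_add]; norm_num⟩
  let q : ℤ[T;T⁻¹] →+* ℤ[T;T⁻¹] ⧸ I := Ideal.Quotient.mk I
  have : Finite (ℤ[T;T⁻¹] ⧸ I)ˣ := inferInstance
  obtain ⟨m, hm, h⟩ := (isOfFinOrder_of_finite (Units.map q.toMonoidHom u)).exists_pow_eq_one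
  refine ⟨m, hm, ?_⟩
  have h1 : q (T 4) ^ m = 1 := congrArg Units.val h
  rw [← map_pow, T_pow] at h1
  have h2 : q (T (m * 4) - 1) = 0 := by rw [map_sub, h1, map_one, sub_self]
  rw [mul_comm] at h2
  exact Ideal.Quotient.eq_zero_iff_mem.1 h2

/-- **The main theorem for ideals of finite index.** -/
theorem values_infinite' (N : ℕ) (hN0 : N ≠ 0) (hN : ∀ p : ℕ, p.Prime → p ∣ N → p ≤ 5) 
    (I : Ideal ℤ[T;T⁻¹]) (hI : Finite (ℤ[T;T⁻¹] ⧸ I)) (n d : ℕ) : 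
    (Values (Ideal.span {(N : ℤ[T;T⁻¹])} * I ^ n) d).Infinite := by
  obtain ⟨m, hm, h⟩ := exists_order I
  refine (values_infinite N hN0 hN m n d hm).mono (Values_mono ?_ d)
  rw [Ideal.span_singleton_le_iff_mem]
  exact Ideal.mul_mem_mul (Ideal.mem_span_singleton_self _) (Ideal.pow_mem_pow h n)

end Pool.Agent.U963.JN
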