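import Pool.Agent.U963.JN.Basis

/-!
# The matrices of the braid words on the spanning set
-/

set_option autoImplicit false

namespace Pool.Agent.U963.JN

section
variable {R : Type*} [CommRing R]

/-- the entries of a vector -/
def get {R : Type*} (v : V R) : Fin 14 → R :=
  ![v.a0, v.a1, v.a2, v.a3, v.a4, v.a5, v.a6, v.a7, v.a8, v.a9, v.a10, v.a11, v.a12, v.a13]

theorem get_inj {R : Type*} {v w : V R} (h : get v = get w) : v = w := by
  have h' : ∀ k, get v k = get w k := fun k => by rw [h]
  cases v; cases w
  have h0 := h' 0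
  have h1 := h' 1
  have h2 := h' 2
  have h3 := h' 3
  have h4 := h' 4
  have h5 := h' 5
  have h6 := h' 6
  have h7 := h' 7
  have h8 := h' 8
  have h9 := h' 9
  have h10 := h' 10
  have h11 := h' 11
  have h12 := h' 12
  have h13 := h' 13
  simp only [get, Fin.isValue] at h0 h1 h2 h3 h4 h5 h6 h7 h8 h9 h10 h11 h12 h13
  simp only [V.mk.injEq]
  exact ⟨h0, h1, h2, h3, h4, h5, h6, h7, h8, h9, h10, h11, h12, h13⟩

/-- the vector with given entries -/
def ofF {R : Type*} (f : Fin 14 → R) : V R :=
  ⟨f 0, f 1, f 2, f 3, f 4, f 5, f 6, f 7, f 8, f 9, f 10, f 11, f 12, f 13⟩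

theorem get_ofF {R : Type*} (f : Fin 14 → R) : get (ofF f) = f := by
  funext k
  fin_cases k <;> rfl

/-- the matrix of a letter -/
def SM (u u' d : R) (i : ℕ) : Matrix (Fin 14) (Fin 14) R :=
  fun j => get (stp u u' d (ofF (Pi.single j 1)) i)

/-- the step as a linear map -/
def stpL (u u' d : R) (i : ℕ) : (Fin 14 → R) →ₗ[R] (Fin 14 → R) where
  toFun f := get (stp u u' d (ofF f) i)
  map_add' f g := by
    match i with
    | 0 => 
      funext k
      fin_cases k <;> simp only [get, stp, ofF, Pi.add_apply, Fin.isValue] <;> simp <;> ring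
    | 1 => 
      funext k
      fin_cases k <;> simp only [get, stp, ofF, Pi.add_apply, Fin.isValue] <;> simp <;> ring
    | (i+2) => 
      funext k
      fin_cases k <;> simp only [get, stp, ofF, Pi.add_apply, Fin.isValue] <;> simp <;> ring
  map_smul' r g := by
    match i with
    | 0 => 
      funext k
      fin_cases k <;> simp only [get, stp, ofF, Pi.smul_apply, Fin.isValue, smul_eq_mul] <;> simp <;> ring
    | 1 => 
      funext k
      fin_cases k <;> simp only [get, stp, ofF, Pi.smul_apply, Fin.isValue, smul_eq_mul] <;> simp <;> ring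
    | (i+2) => 
      funext k
      fin_cases k <;> simp only [get, stp, ofF, Pi.smul_apply, Fin.isValue, smul_eq_mul] <;> simp <;> ring

theorem ofF_get {R : Type*} (v : V R) : ofF (get v) = v := get_inj (get_ofF _)

theorem get_stp (u u' d : R) (v : V R) (i : ℕ) :
    get (stp u u' d v i) = Matrix.vecMul (get v) (SM u u' d i) := by
  have h1 : get (stp u u' d v i) = stpL u u' d i (get v) := by
    show _ = get (stp u u' d (ofF (get v)) i)
    rw [ofF_get]
  rw [h1, LinearMap.pi_apply_eq_sum_univ]
  funext k
  rw [Finset.sum_apply]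
  unfold Matrix.vecMul dotProduct
  refine Finset.sum_congr rfl fun j _ => ?_
  rw [Pi.smul_apply, smul_eq_mul]
  congr 1
  show get (stp u u' d (ofF (fun l => if j = l then 1 else 0)) i) k = get (stp u u' d (ofF (Pi.single j 1)) i) k
  congr 4
  funext l
  rw [Pi.single_apply]
  simp only [eq_comm]

/-- the matrix of a word -/
def WM (u u' d : R) (w : List (Bool × ℕ)) : Matrix (Fin 14) (Fin 14) R :=
  (w.map (fun x => if x.1 then SM u u' d x.2 else SM u' u d x.2)).prod

theorem WM_append (u u' d : R) (w w' : List (Bool × ℕ)) : 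
    WM u u' d (w ++ w') = WM u u' d w * WM u u' d w' := by simp [WM]

theorem get_run (u u' d : R) (w : List (Bool × ℕ)) : ∀ v : V R,
    get (run u u' d w v) = Matrix.vecMul (get v) (WM u u' d w) := by
  induction w with
  | nil => intro v; simp [run, WM]
  | cons x w ih =>
    intro v
    have h1 : WM u u' d (x :: w) = (if x.1 then SM u u' d x.2 else SM u' u d x.2) * WM u u' d w := by 
      simp [WM]
    rw [run, ih, h1, ← Matrix.vecMul_vecMul]
    congr 1
    split_ifs
    · exact get_stp _ _ _ _ _
    · exact get_stp _ _ _ _ _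

theorem WM_row (u u' d : R) (w : List (Bool × ℕ)) (j : Fin 14) : 
    WM u u' d w j = get (run u u' d w (ofF (Pi.single j 1))) := by
  rw [get_run, get_ofF, Matrix.single_one_vecMul]
  rfl

/-! ### ring homomorphisms -/

/-- the image under a map -/
def V.map {R S : Type*} (f : R → S) (v : V R) : V S :=
  ⟨f v.a0, f v.a1, f v.a2, f v.a3, f v.a4, f v.a5, f v.a6, f v.a7, f v.a8, f v.a9, f v.a10, f v.a11, f v.a12, f v.a13⟩

theorem get_map {R S : Type*} (f : R → S) (v : V R) (k : Fin 14) : get (v.map f) k = f (get v k) := by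
  fin_cases k <;> rfl

variable {S : Type*} [CommRing S] (f : R →+* S)

theorem map_stp (u u' d : R) (v : V R) (i : ℕ) : 
    (stp u u' d v i).map f = stp (f u) (f u') (f d) (v.map f) i := by
  match i with
  | 0 => simp [stp, V.map]
  | 1 => simp [stp, V.map]
  | (i+2) => simp [stp, V.map]

theorem map_run (u u' d : R) (w : List (Bool × ℕ)) : ∀ v : V R,
    (run u u' d w v).map f = run (f u) (f u') (f d) w (v.map f) := by
  induction w with
  | nil => intro v; rfl
  | cons x w ih =>
    intro v
    rw [run, ih, run]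
    congr 1
    split_ifs
    · exact map_stp f _ _ _ _ _
    · exact map_stp f _ _ _ _ _

end

end Pool.Agent.U963.JN
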