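import Pool.Agent.U963.JN.Fam

/-!
# Non-triviality, modulo 11 at `A = 3`
-/

set_option autoImplicit false

namespace Pool.Agent.U963.JN

open Finset LaurentPolynomial Pool.Agent.H891R2.Jones Pool.Agent.W639.RB Pool.Agent.Y463.SK Pool.Agent.Y463.MP
open Pool.Agent.TH561 (dl)

/-! ### the closure of `σ_1 σ_2 σ_3` -/

theorem dl_eq : dl = - (T 1 : ℤ[T;T⁻¹])^2 - (T (-1))^2 := by
  unfold dl
  rw [T_pow, T_pow]
  norm_num

theorem dl_ne : dl ≠ 0 := by
  intro h
  have := congrArg (ev 3 le_rfl) h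
  rw [Pool.Agent.TH561.ev_dl, map_zero] at this
  norm_num at this

theorem tau_tl : tau dl (run (T 1) (T (-1)) dl tl (one ℤ[T;T⁻¹])) = dl * (-(T 1)^9) := by
  have h : (T 1 : ℤ[T;T⁻¹]) * T (-1) = 1 := T_mul_inv
  have h3 : T 1 * dl + T (-1) = -(T 1 : ℤ[T;T⁻¹])^3 := by
    rw [dl_eq]
    linear_combination (-(T (-1) : ℤ[T;T⁻¹])) * h
  have h4 : tau dl (run (T 1) (T (-1)) dl tl (one ℤ[T;T⁻¹])) = dl * (T 1 * dl + T (-1))^3 := by
    simp only [tl, run, stp, one, tau, if_true]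
    ring
  rw [h4, h3]
  ring

theorem un3 : un 3 = -T (-9) := by
  unfold un
  rw [if_neg (by decide)]
  norm_num

theorem fPoly_tl : (draw (braidClosure 4) tl).close.fPoly = 1 := by
  have h1 := bracket_clo tl tl_lt
  rw [tau_tl] at h1
  have h2 := mul_left_cancel₀ dl_ne h1
  have h3 := owr_clo [] (by simp) (fun _ => rfl) rfl
  rw [List.nil_append] at h3
  rw [fPoly_eq, h3, h2, un3, T_pow]
  have : (T (-9) : ℤ[T;T⁻¹]) * T (((9 : ℕ) : ℤ) * 1) = 1 := by
    rw [← T_add]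
    norm_num
  rw [neg_mul_neg, this]

/-! ### reduction -/

instance : Fact (Nat.Prime 11) := ⟨by norm_num⟩

/-- `A ↦ 3` modulo 11 -/
noncomputable def ph : ℤ[T;T⁻¹] →+* ZMod 11 := 
  LaurentPolynomial.eval₂ (Int.castRingHom (ZMod 11)) (Units.mk (3 : ZMod 11) 4 (by decide) (by decide))

theorem ph_T1 : ph (T 1) = 3 := by
  unfold ph
  rw [LaurentPolynomial.eval₂_T]
  simp

theorem ph_Tm1 : ph (T (-1)) = 4 := by
  unfold ph
  rw [LaurentPolynomial.eval₂_T]
  simp

theorem ph_dl : ph dl = 8 := by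
  rw [dl_eq, map_sub, map_neg, map_pow, map_pow, ph_T1, ph_Tm1]
  decide

/-- the closure functional of a matrix -/
def clM (M : Matrix (Fin 14) (Fin 14) (ZMod 11)) : ZMod 11 := tau 8 (run 3 4 8 tl (ofF (M 0)))

theorem ph_clo (W : List (Bool × ℕ)) (hW : ∀ x ∈ W, x.2 + 1 < 4) : 
    ph (dl * (draw (braidClosure 4) (W ++ tl)).close.bracket) = clM (WM 3 4 8 W) := by
  have hWV : ∀ x ∈ W ++ tl, x.2 + 1 < 4 := by
    intro x hx
    rcases List.mem_append.1 hx with hx | hx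
    · exact hW x hx
    · exact tl_lt x hx
  have hrun : ∀ (u u' d : ZMod 11) (w w' : List (Bool × ℕ)) (v : V (ZMod 11)), 
      run u u' d (w ++ w') v = run u u' d w' (run u u' d w v) := by
    intro u u' d w
    induction w with
    | nil => intro w' v; rfl
    | cons x w ih => intro w' v; exact ih w' _
  rw [bracket_clo _ hWV, tau_map, map_run, ph_T1, ph_Tm1, ph_dl]
  have h1 : (one ℤ[T;T⁻¹]).map ph = ofF (Pi.single 0 1) := by
    simp only [one, V.map, map_one, map_zero]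
    rfl
  rw [h1, hrun]
  unfold clM
  rw [WM_row, ofF_get]

/-- if the closure had the polynomial 1 -/
theorem clM_one (W : List (Bool × ℕ)) (hW : ∀ x ∈ W, x.2 + 1 < 4) (hc : ∀ U, costS W U = 0) 
    (hp : permL W = 1) (h : (draw (braidClosure 4) (W ++ tl)).close.fPoly = 1) : clM (WM 3 4 8 W) = 1 := by
  rw [← ph_clo W hW]
  rw [fPoly_eq, owr_clo W hW hc hp, un3] at h
  have h1 : (draw (braidClosure 4) (W ++ tl)).close.bracket = -T 9 := by
    have h2 : (T 9 : ℤ[T;T⁻¹]) * T (-9) = 1 := by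
      rw [← T_add]
      norm_num
    calc (draw (braidClosure 4) (W ++ tl)).close.bracket 
        = -(T 9 * (-T (-9) * (draw (braidClosure 4) (W ++ tl)).close.bracket)) := by
          rw [← mul_assoc, mul_neg, h2]; ring
      _ = _ := by rw [h, mul_one]
  have h3 : (T 9 : ℤ[T;T⁻¹]) = T 1 ^ 9 := by
    rw [T_pow]; norm_num
  rw [h1, map_mul, map_neg, h3, map_pow, ph_dl, ph_T1]
  decide

/-! ### the matrices of the family -/

/-- pairs of matrices -/
abbrev MM : Type := Matrix (Fin 14) (Fin 14) (ZMod 11) × Matrix (Fin 14) (Fin 14) (ZMod 11)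

/-- the matrices of a word and its inverse -/
def MP (w : List (Bool × ℕ)) : MM := (WM 3 4 8 w, WM 3 4 8 (invL w))

/-- commutators -/
def cm (X Y : MM) : MM := (X.1 * Y.1 * X.2 * Y.2, Y.1 * X.1 * Y.2 * X.2)

theorem MP_com (x y : List (Bool × ℕ)) : MP (com x y) = cm (MP x) (MP y) := by
  unfold MP cm
  rw [invL_com]
  unfold com
  simp only [WM_append]

/-- the matrices of numerical data -/
def toP (X : List (V ℕ) × List (V ℕ)) : MM := (toM 11 X.1, toM 11 X.2)

theorem toP_pr (w : List (Bool × ℕ)) : toP (pr w) = MP w := by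
  unfold toP pr MP
  have := toM_matN 11 3 4 8 w
  have h2 := toM_matN 11 3 4 8 (invL w)
  push_cast at this h2
  simp only [this, h2]

theorem toP_cmN (X Y : List (V ℕ) × List (V ℕ)) (h1 : X.1.length = 14) (h2 : X.2.length = 14) 
    (h3 : Y.1.length = 14) (h4 : Y.2.length = 14) : toP (cmN X Y) = cm (toP X) (toP Y) := by
  unfold toP cmN cm
  simp only
  rw [toM_mulN, toM_mulN, toM_mulN, toM_mulN, toM_mulN, toM_mulN] <;> simp [length_mulN, *]

theorem WM_pw (w : List (Bool × ℕ)) (n : ℕ) : WM (3 : ZMod 11) 4 8 (pw w n) = WM 3 4 8 w ^ n := by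
  induction n with
  | zero => rfl
  | succ n ih => rw [pw_succ', WM_append, ih, pow_succ]

theorem pow_mod_of {M : Type*} [Monoid M] {a : M} {o : ℕ} (ho : a ^ o = 1) (n : ℕ) : a ^ (n % o) = a ^ n := by
  conv_rhs => rw [← Nat.div_add_mod n o]
  rw [pow_add, pow_mul, ho, one_pow, one_mul]

theorem pow_eq_self {M : Type*} [Monoid M] {a : M} {o p k : ℕ} (ho : a ^ o = 1) (hp : p ^ 36 % o = 1 % o) : 
    a ^ (p ^ (36 * k)) = a := by
  have h1 : p ^ (36 * k) % o = 1 % o := by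
    rw [pow_mul, Nat.pow_mod, hp, ← Nat.pow_mod, one_pow]
  have h2 : a ^ (p ^ (36 * k)) = a ^ (p ^ (36 * k) % o) := (pow_mod_of ho _).symm
  have h3 : a ^ (1 % o) = a ^ 1 := pow_mod_of ho _
  rw [h2, h1, h3, pow_one]

theorem MP_pw {w : List (Bool × ℕ)} {o p : ℕ} (ho : WM (3 : ZMod 11) 4 8 w ^ o = 1) 
    (hinv : WM (3 : ZMod 11) 4 8 w * WM 3 4 8 (invL w) = 1) (hp : p ^ 36 % o = 1 % o) (k : ℕ) : 
    MP (pw w (p ^ (36 * k))) = MP w := by
  have ho' : WM (3 : ZMod 11) 4 8 (invL w) ^ o = 1 := by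
    have hc : Commute (WM (3 : ZMod 11) 4 8 w) (WM 3 4 8 (invL w)) := by
      show _ * _ = _ * _
      rw [hinv, mul_eq_one_comm.1 hinv]
    have := hc.mul_pow o
    rw [hinv, one_pow, ho, one_mul] at this
    exact this.symm
  unfold MP
  rw [invL_pw, WM_pw, WM_pw, pow_eq_self ho hp, pow_eq_self ho' hp]

set_option maxRecDepth 100000 in
theorem inv2 : eqM (mulN 11 (pr g2).1 (pr g2).2) idN = true := by decide +kernel
set_option maxRecDepth 100000 in
theorem inv3 : eqM (mulN 11 (pr g3).1 (pr g3).2) idN = true := by decide +kernel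
set_option maxRecDepth 100000 in
theorem inv5 : eqM (mulN 11 (pr g5).1 (pr g5).2) idN = true := by decide +kernel

theorem inv_of {w : List (Bool × ℕ)} (h : eqM (mulN 11 (pr w).1 (pr w).2) idN = true) : 
    WM (3 : ZMod 11) 4 8 w * WM 3 4 8 (invL w) = 1 := by
  have h1 := congrArg (toM 11) (eqM_eq h)
  rw [toM_mulN 11 (pr w).1 (pr w).2 (length_matN _ _ _ _ _) (length_matN _ _ _ _ _), toM_id] at h1
  have h2 := toP_pr w
  have h3 : toM 11 (pr w).1 = WM 3 4 8 w := congrArg Prod.fst h2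
  have h4 : toM 11 (pr w).2 = WM 3 4 8 (invL w) := congrArg Prod.snd h2
  rwa [h3, h4] at h1

theorem ord_of {w : List (Bool × ℕ)} {o : ℕ} (h : eqM (powM 11 (matN 11 3 4 8 w) o) idN = true) : 
    WM (3 : ZMod 11) 4 8 w ^ o = 1 := by
  have h1 := congrArg (toM 11) (eqM_eq h)
  rw [toM_powM _ _ (length_matN _ _ _ _ _), toM_id] at h1
  have h3 : toM 11 (matN 11 3 4 8 w) = WM 3 4 8 w := congrArg Prod.fst (toP_pr w)
  rwa [h3] at h1

theorem MP_g2 (k : ℕ) : MP (pw g2 (2 ^ (36 * k))) = MP g2 := MP_pw (ord_of chk2) (inv_of inv2) (by norm_num) k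
theorem MP_g3 (k : ℕ) : MP (pw g3 (3 ^ (36 * k))) = MP g3 := MP_pw (ord_of chk3) (inv_of inv3) (by norm_num) k
theorem MP_g5 (k : ℕ) : MP (pw g5 (5 ^ (36 * k))) = MP g5 := MP_pw (ord_of chk5) (inv_of inv5) (by norm_num) k

/-- the numerical family -/
def pn : ℕ → List (V ℕ) × List (V ℕ)
  | 0 => p0
  | n+1 => cmN (pr hh) (cmN (pr zz) (pn n))

theorem len_pr (w : List (Bool × ℕ)) : (pr w).1.length = 14 ∧ (pr w).2.length = 14 := 
  ⟨length_matN _ _ _ _ _, length_matN _ _ _ _ _⟩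

theorem len_cmN {X Y : List (V ℕ) × List (V ℕ)} (h1 : X.1.length = 14) (h2 : Y.1.length = 14) : 
    (cmN X Y).1.length = 14 ∧ (cmN X Y).2.length = 14 := by
  unfold cmN
  simp [length_mulN, *]

theorem len_pn (n : ℕ) : (pn n).1.length = 14 ∧ (pn n).2.length = 14 := by
  cases n with
  | zero => exact len_cmN (len_pr _).1 (len_cmN (len_pr _).1 (len_pr _).1).1
  | succ n => exact len_cmN (len_pr _).1 (len_cmN (len_pr _).1 (len_pn n).1).1

theorem MP_W0 (k : ℕ) : MP (W0 k) = toP p0 := by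
  unfold W0 p0
  rw [MP_com, MP_com, MP_g2, MP_g3, MP_g5, toP_cmN _ _ (len_pr _).1 (len_pr _).2 
    (len_cmN (len_pr _).1 (len_pr _).1).1 (len_cmN (len_pr _).1 (len_pr _).1).2, 
    toP_cmN _ _ (len_pr _).1 (len_pr _).2 (len_pr _).1 (len_pr _).2, toP_pr, toP_pr, toP_pr]

theorem pw_one (w : List (Bool × ℕ)) : pw w 1 = w := by simp [pw]

theorem toP_step (X : List (V ℕ) × List (V ℕ)) (h1 : X.1.length = 14) (h2 : X.2.length = 14) : 
    toP (cmN (pr hh) (cmN (pr zz) X)) = cm (MP hh) (cm (MP zz) (toP X)) := by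
  rw [toP_cmN _ _ (len_pr _).1 (len_pr _).2 (len_cmN (len_pr _).1 h1).1 (len_cmN (len_pr _).1 h1).2, 
    toP_cmN _ _ (len_pr _).1 (len_pr _).2 h1 h2, toP_pr, toP_pr]

theorem MP_Wn (k n : ℕ) : MP (Wn 1 k n) = toP (pn n) := by
  induction n with
  | zero => exact MP_W0 k
  | succ n ih =>
    show MP (com (pw hh 1) (com zz (Wn 1 k n))) = toP (cmN (pr hh) (cmN (pr zz) (pn n)))
    rw [MP_com, MP_com, ih, pw_one, toP_step _ (len_pn n).1 (len_pn n).2]

theorem pn_period (n : ℕ) : toP (pn (n + 3)) = toP (pn (n + 2)) := by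
  induction n with
  | zero =>
    have h : cmN (pr hh) (cmN (pr zz) p2) = p2 := by
      have h1 := chk6
      unfold eqP at h1
      rw [Bool.and_eq_true] at h1
      exact Prod.ext (eqM_eq h1.1) (eqM_eq h1.2)
    show toP (cmN (pr hh) (cmN (pr zz) p2)) = toP p2
    rw [h]
  | succ n ih =>
    show toP (cmN (pr hh) (cmN (pr zz) (pn (n + 3)))) = toP (cmN (pr hh) (cmN (pr zz) (pn (n + 2))))
    rw [toP_step _ (len_pn _).1 (len_pn _).2, toP_step _ (len_pn _).1 (len_pn _).2, ih]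

theorem clM_toM (X : List (V ℕ)) : clM (toM 11 X) = (clN X : ZMod 11) := by
  unfold clM clN
  have h1 : ofF (toM 11 X 0) = cst 11 (X.getD 0 zeroN) := by
    show ofF (get (cst 11 (X.getD 0 zeroN))) = _
    rw [ofF_get]
  have h2 := cst_run 11 3 4 8 tl (X.getD 0 zeroN)
  push_cast at h2
  rw [h1, ← h2]
  simp only [tau, cst, V.map, tl]
  rw [ZMod.natCast_mod]
  push_cast
  rfl

theorem clM_pn (n : ℕ) : clM (toP (pn n)).1 ≠ 1 := by
  have h := chk7
  simp only [Prod.mk.injEq] at h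
  obtain ⟨h0, h1, h2⟩ := h
  induction n using Nat.strong_induction_on with
  | _ n ih =>
    match n, ih with
    | 0, _ => show clM (toM 11 p0.1) ≠ 1; rw [clM_toM, h0]; decide
    | 1, _ => show clM (toM 11 p1.1) ≠ 1; rw [clM_toM, h1]; decide
    | 2, _ => show clM (toM 11 p2.1) ≠ 1; rw [clM_toM, h2]; decide
    | (n+3), ih => 
      rw [pn_period n]
      exact ih (n+2) (by omega)

/-- **The closures have non-trivial polynomials.** -/
theorem fPoly_ne (k n : ℕ) : (draw (braidClosure 4) (Wn 1 k n ++ tl)).close.fPoly ≠ 1 := by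
  intro h
  have h1 := clM_one (Wn 1 k n) (good_Wn 1 k n).lt (cost_Wn 1 k n) (good_Wn 1 k n).pure h
  have h2 : WM (3 : ZMod 11) 4 8 (Wn 1 k n) = (toP (pn n)).1 := congrArg Prod.fst (MP_Wn k n)
  rw [h2] at h1
  exact clM_pn n h1

end Pool.Agent.U963.JN
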