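import Pool.Agent.U963.JN.Mat

/-!
# Computing with the matrices modulo a number
-/

set_option autoImplicit false

namespace Pool.Agent.U963.JN

/-- the step modulo `l` -/
def stpN (l u u' d : ℕ) (v : V ℕ) (i : ℕ) : V ℕ :=
  match i with
  | 0 => ⟨(u*v.a0)%l, (u*v.a1 + u'*(v.a0+d*v.a1+v.a4))%l, (u*v.a2)%l, (u*v.a3)%l, (u*v.a4)%l,
      (u*v.a5+u'*(v.a2+d*v.a5))%l, (u*v.a6)%l, (u*v.a7)%l,
      (u*v.a8+u'*(v.a3+d*v.a8+v.a9+v.a11))%l, (u*v.a9)%l, (u*v.a10+u'*(v.a7+d*v.a10))%l, (u*v.a11)%l,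
      (u*v.a12+u'*(v.a6+d*v.a12+v.a13))%l, (u*v.a13)%l⟩
  | 1 => ⟨(u*v.a0)%l, (u*v.a1)%l, (u*v.a2+u'*(v.a0+d*v.a2+v.a5+v.a6))%l, (u*v.a3)%l,
      (u*v.a4+u'*(v.a1+d*v.a4+v.a9))%l, (u*v.a5)%l, (u*v.a6)%l, 
      (u*v.a7+u'*(v.a3+d*v.a7+v.a10))%l, (u*v.a8)%l, (u*v.a9)%l, (u*v.a10)%l, (u*v.a11+u'*(v.a8+d*v.a11))%l,
      (u*v.a12)%l, (u*v.a13+u'*(v.a12+d*v.a13))%l⟩
  | _ => ⟨(u*v.a0)%l, (u*v.a1)%l, (u*v.a2)%l, (u*v.a3+u'*(v.a0+d*v.a3+v.a7))%l, (u*v.a4)%l, (u*v.a5)%l,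
      (u*v.a6+u'*(v.a2+d*v.a6))%l, (u*v.a7)%l, 
      (u*v.a8+u'*(v.a1+d*v.a8+v.a10+v.a11))%l, (u*v.a9+u'*(v.a4+d*v.a9))%l, (u*v.a10)%l, (u*v.a11)%l,
      (u*v.a12+u'*(v.a5+d*v.a12+v.a13))%l, (u*v.a13)%l⟩

/-- the action of a word modulo `l` -/
def runN (l u u' d : ℕ) : List (Bool × ℕ) → V ℕ → V ℕ
  | [], v => v
  | x :: w, v => runN l u u' d w (if x.1 then stpN l u u' d v x.2 else stpN l u' u d v x.2)

/-- reduction modulo `l` -/
def cst (l : ℕ) (v : V ℕ) : V (ZMod l) := V.map (Nat.cast : ℕ → ZMod l) v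

theorem cst_stp (l u u' d : ℕ) (v : V ℕ) (i : ℕ) : 
    cst l (stpN l u u' d v i) = stp (u : ZMod l) u' d (cst l v) i := by
  match i with
  | 0 => simp [stpN, stp, V.map, cst]
  | 1 => simp [stpN, stp, V.map, cst]
  | (i+2) => simp [stpN, stp, V.map, cst]

theorem cst_run (l u u' d : ℕ) (w : List (Bool × ℕ)) : ∀ v : V ℕ, 
    cst l (runN l u u' d w v) = run (u : ZMod l) u' d w (cst l v) := by
  induction w with
  | nil => intro v; rfl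
  | cons x w ih =>
    intro v
    rw [runN, ih, run]
    congr 1
    split_ifs
    · exact cst_stp _ _ _ _ _ _
    · exact cst_stp _ _ _ _ _ _

/-- the zero vector -/
def zeroN : V ℕ := ⟨0, 0, 0, 0, 0, 0, 0, 0, 0, 0, 0, 0, 0, 0⟩

/-- the unit vectors -/
def idN : List (V ℕ) := 
  [⟨1, 0, 0, 0, 0, 0, 0, 0, 0, 0, 0, 0, 0, 0⟩, ⟨0, 1, 0, 0, 0, 0, 0, 0, 0, 0, 0, 0, 0, 0⟩, 
   ⟨0, 0, 1, 0, 0, 0, 0, 0, 0, 0, 0, 0, 0, 0⟩, ⟨0, 0, 0, 1, 0, 0, 0, 0, 0, 0, 0, 0, 0, 0⟩,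
   ⟨0, 0, 0, 0, 1, 0, 0, 0, 0, 0, 0, 0, 0, 0⟩, ⟨0, 0, 0, 0, 0, 1, 0, 0, 0, 0, 0, 0, 0, 0⟩,
   ⟨0, 0, 0, 0, 0, 0, 1, 0, 0, 0, 0, 0, 0, 0⟩, ⟨0, 0, 0, 0, 0, 0, 0, 1, 0, 0, 0, 0, 0, 0⟩,
   ⟨0, 0, 0, 0, 0, 0, 0, 0, 1, 0, 0, 0, 0, 0⟩, ⟨0, 0, 0, 0, 0, 0, 0, 0, 0, 1, 0, 0, 0, 0⟩,
   ⟨0, 0, 0, 0, 0, 0, 0, 0, 0, 0, 1, 0, 0, 0⟩, ⟨0, 0, 0, 0, 0, 0, 0, 0, 0, 0, 0, 1, 0, 0⟩,
   ⟨0, 0, 0, 0, 0, 0, 0, 0, 0, 0, 0, 0, 1, 0⟩, ⟨0, 0, 0, 0, 0, 0, 0, 0, 0, 0, 0, 0, 0, 1⟩]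

/-- a list of 14 vectors as a matrix -/
def toM (l : ℕ) (X : List (V ℕ)) : Matrix (Fin 14) (Fin 14) (ZMod l) := fun j => get (cst l (X.getD j zeroN))

theorem toM_id (l : ℕ) : toM l idN = 1 := by
  funext j k
  fin_cases j <;> fin_cases k <;> simp [toM, idN, cst, V.map, get]

/-- the matrix of a word -/
def matN (l u u' d : ℕ) (w : List (Bool × ℕ)) : List (V ℕ) := idN.map (runN l u u' d w)

theorem toM_matN (l u u' d : ℕ) (w : List (Bool × ℕ)) : toM l (matN l u u' d w) = WM (u : ZMod l) u' d w := by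
  funext j
  have h1 : (matN l u u' d w).getD j zeroN = runN l u u' d w (idN.getD j zeroN) := by
    fin_cases j <;> rfl
  have h2 : toM l (matN l u u' d w) j = get (cst l ((matN l u u' d w).getD j zeroN)) := rfl
  rw [h2, h1, cst_run, get_run]
  have h3 : get (cst l (idN.getD j zeroN)) = Pi.single j 1 := by
    have h4 := congrFun (toM_id l) j
    have h5 : get (cst l (idN.getD j zeroN)) = toM l idN j := rfl
    rw [h5, h4]
    funext k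
    rw [Matrix.one_apply, Pi.single_apply]
    simp only [eq_comm]
  rw [h3, Matrix.single_one_vecMul]
  rfl

/-- `acc + a y` -/
def addmul (l a : ℕ) (y acc : V ℕ) : V ℕ :=
  ⟨(acc.a0+a*y.a0)%l, (acc.a1+a*y.a1)%l, (acc.a2+a*y.a2)%l, (acc.a3+a*y.a3)%l, (acc.a4+a*y.a4)%l, 
   (acc.a5+a*y.a5)%l, (acc.a6+a*y.a6)%l, (acc.a7+a*y.a7)%l, (acc.a8+a*y.a8)%l, (acc.a9+a*y.a9)%l,
   (acc.a10+a*y.a10)%l, (acc.a11+a*y.a11)%l, (acc.a12+a*y.a12)%l, (acc.a13+a*y.a13)%l⟩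

theorem get_addmul (l a : ℕ) (y acc : V ℕ) (k : Fin 14) : 
    get (cst l (addmul l a y acc)) k = get (cst l acc) k + a * get (cst l y) k := by
  fin_cases k <;> simp [addmul, cst, V.map, get]

/-- a row times a matrix -/
def vm (l : ℕ) : List ℕ → List (V ℕ) → V ℕ
  | a :: x, y :: Y => addmul l a y (vm l x Y)
  | _, _ => zeroN

theorem get_zeroN (l : ℕ) (k : Fin 14) : get (cst l zeroN) k = 0 := by
  fin_cases k <;> simp [zeroN, cst, V.map, get]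

theorem get_vm (l : ℕ) (k : Fin 14) : ∀ (n : ℕ) (x : List ℕ) (Y : List (V ℕ)), x.length = n → Y.length = n → 
    get (cst l (vm l x Y)) k = ∑ j ∈ Finset.range n, (x.getD j 0 : ZMod l) * get (cst l (Y.getD j zeroN)) k
  | 0, x, Y, h1, h2 => by
    rw [List.length_eq_zero_iff] at h1
    rw [h1, vm, get_zeroN, Finset.sum_range_zero]
    simp
  | (n+1), x, Y, h1, h2 => by
    obtain ⟨a, x', rfl⟩ := List.exists_cons_of_length_eq_add_one h1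
    obtain ⟨y, Y', rfl⟩ := List.exists_cons_of_length_eq_add_one h2
    rw [vm, get_addmul, get_vm l k n x' Y' (by simpa using h1) (by simpa using h2), Finset.sum_range_succ']
    simp

/-- the entries -/
def V.toList (v : V ℕ) : List ℕ := [v.a0, v.a1, v.a2, v.a3, v.a4, v.a5, v.a6, v.a7, v.a8, v.a9, v.a10, v.a11, v.a12, v.a13]

/-- the product of matrices -/
def mulN (l : ℕ) (X Y : List (V ℕ)) : List (V ℕ) := X.map (fun x => vm l x.toList Y)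

theorem length_mulN (l : ℕ) (X Y : List (V ℕ)) : (mulN l X Y).length = X.length := by simp [mulN]

theorem toM_mulN (l : ℕ) (X Y : List (V ℕ)) (hX : X.length = 14) (hY : Y.length = 14) : 
    toM l (mulN l X Y) = toM l X * toM l Y := by
  funext j k
  have hj : (j : ℕ) < X.length := by rw [hX]; exact j.2
  have h1 : (mulN l X Y).getD j zeroN = vm l (X.getD j zeroN).toList Y := by
    rw [List.getD_eq_getElem _ _ (by rw [length_mulN]; exact hj), List.getD_eq_getElem _ _ hj]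
    simp [mulN]
  have h2 : toM l (mulN l X Y) j k = get (cst l ((mulN l X Y).getD j zeroN)) k := rfl
  rw [h2, h1, get_vm l k 14 _ _ rfl hY, Matrix.mul_apply, ← Fin.sum_univ_eq_sum_range 
    (fun i => ((X.getD j zeroN).toList.getD i 0 : ZMod l) * get (cst l (Y.getD i zeroN)) k)]
  refine Finset.sum_congr rfl fun i _ => ?_
  congr 1
  show (((X.getD j zeroN).toList.getD i 0 : ℕ) : ZMod l) = get (cst l (X.getD j zeroN)) i
  generalize X.getD j zeroN = z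
  fin_cases i <;> rfl

/-- the powers of a matrix -/
def powM (l : ℕ) (X : List (V ℕ)) : ℕ → List (V ℕ)
  | 0 => idN
  | n+1 => mulN l (powM l X n) X

theorem length_powM (l : ℕ) (X : List (V ℕ)) : ∀ n, (powM l X n).length = 14
  | 0 => rfl
  | n+1 => by rw [powM, length_mulN, length_powM l X n]

theorem toM_powM (l : ℕ) (X : List (V ℕ)) (hX : X.length = 14) : ∀ n, toM l (powM l X n) = toM l X ^ n
  | 0 => by rw [powM, toM_id, pow_zero]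
  | n+1 => by rw [powM, toM_mulN l _ _ (length_powM l X n) hX, toM_powM l X hX n, pow_succ]

theorem length_matN (l u u' d : ℕ) (w : List (Bool × ℕ)) : (matN l u u' d w).length = 14 := by
  simp [matN, idN]

/-- equality test -/
def eqV (v w : V ℕ) : Bool := 
  v.a0 == w.a0 && v.a1 == w.a1 && v.a2 == w.a2 && v.a3 == w.a3 && v.a4 == w.a4 && v.a5 == w.a5 && 
  v.a6 == w.a6 && v.a7 == w.a7 && v.a8 == w.a8 && v.a9 == w.a9 && v.a10 == w.a10 && v.a11 == w.a11 && 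
  v.a12 == w.a12 && v.a13 == w.a13

theorem eqV_eq {v w : V ℕ} (h : eqV v w = true) : v = w := by
  cases v; cases w
  simp only [eqV, Bool.and_eq_true, beq_iff_eq] at h
  simp only [V.mk.injEq]
  tauto

/-- equality test -/
def eqM : List (V ℕ) → List (V ℕ) → Bool
  | [], [] => true
  | x :: X, y :: Y => eqV x y && eqM X Y
  | _, _ => false

theorem eqM_eq : ∀ {X Y : List (V ℕ)}, eqM X Y = true → X = Y
  | [], [], _ => rfl
  | x :: X, y :: Y, h => by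
    rw [eqM, Bool.and_eq_true] at h
    rw [eqV_eq h.1, eqM_eq h.2]
  | [], _ :: _, h => by simp [eqM] at h
  | _ :: _, [], h => by simp [eqM] at h

end Pool.Agent.U963.JN
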