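import Pool.Agent.U963.JN.Non

/-!
# Non-triviality for almost all exponents
-/

set_option autoImplicit false

namespace Pool.Agent.U963.JN

open Finset LaurentPolynomial Pool.Agent.H891R2.Jones Pool.Agent.W639.RB Pool.Agent.Y463.SK Pool.Agent.Y463.MP
open Pool.Agent.TH561 (dl)

/-- matrices over `ℤ[A, A⁻¹]` -/
abbrev MA : Type := Matrix (Fin 14) (Fin 14) ℤ[T;T⁻¹]

/-- the matrix of a word -/
noncomputable def WR (w : List (Bool × ℕ)) : MA := WM (T 1) (T (-1)) dl w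

/-! ### the matrix of the first generator -/

/-- the matrix of `e_0` -/
noncomputable def EE0 : MA := SM 0 1 dl 0

theorem row_eq {M N : MA} (h : ∀ v : Fin 14 → ℤ[T;T⁻¹], Matrix.vecMul v M = Matrix.vecMul v N) : M = N := by
  funext j
  have := h (Pi.single j 1)
  rw [Matrix.single_one_vecMul, Matrix.single_one_vecMul] at this
  exact this

theorem SM_eq (u u' : ℤ[T;T⁻¹]) : SM u u' dl 0 = u • (1 : MA) + u' • EE0 := by
  apply row_eq
  intro v
  rw [Matrix.vecMul_add, Matrix.vecMul_smul, Matrix.vecMul_smul, Matrix.vecMul_one, ← get_ofF v, ← get_stp]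
  unfold EE0
  rw [← get_stp]
  funext k
  fin_cases k <;> simp [get, stp, ofF]

theorem EE0_sq : EE0 * EE0 = dl • EE0 := by
  apply row_eq
  intro v
  rw [← Matrix.vecMul_vecMul, Matrix.vecMul_smul, ← get_ofF v]
  unfold EE0
  rw [← get_stp, ← get_stp]
  funext k
  fin_cases k <;> simp [get, stp, ofF]

theorem T11 : (T 1 : ℤ[T;T⁻¹]) * T 1 = T 2 := by rw [← T_add]; norm_num
theorem T1m : (T 1 : ℤ[T;T⁻¹]) * T (-1) = 1 := T_mul_inv
theorem Tm1 : (T (-1) : ℤ[T;T⁻¹]) * T 1 = 1 := by rw [mul_comm]; exact T_mul_inv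
theorem Tmm : (T (-1) : ℤ[T;T⁻¹]) * T (-1) = T (-2) := by rw [← T_add]; norm_num

theorem dl_def : dl = -T 2 - T (-2) := rfl

theorem c_pos : (1 : ℤ[T;T⁻¹]) + 1 + T (-2) * dl = 1 - T (-4) := by
  rw [dl_def, mul_sub, mul_neg, ← T_add, ← T_add]
  norm_num
  ring

theorem c_neg : (1 : ℤ[T;T⁻¹]) + 1 + T 2 * dl = 1 - T 4 := by
  rw [dl_def, mul_sub, mul_neg, ← T_add, ← T_add]
  norm_num
  ring

theorem WR_hh : WR hh = (T 2 : ℤ[T;T⁻¹]) • (1 : MA) + (1 - T (-4) : ℤ[T;T⁻¹]) • EE0 := by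
  have h : WR hh = ((T 1 : ℤ[T;T⁻¹]) • (1 : MA) + (T (-1) : ℤ[T;T⁻¹]) • EE0) * 
      ((T 1 : ℤ[T;T⁻¹]) • (1 : MA) + (T (-1) : ℤ[T;T⁻¹]) • EE0) := by
    unfold WR WM hh
    simp only [List.map_cons, List.map_nil, List.prod_cons, List.prod_nil, mul_one, if_true, SM_eq]
  rw [h]
  have h2 : (T 1 : ℤ[T;T⁻¹]) * T (-1) + T (-1) * T 1 + T (-1) * T (-1) * dl = 1 - T (-4) := by
    rw [T1m, Tm1, Tmm, c_pos]
  calc _ = (T 1 * T 1 : ℤ[T;T⁻¹]) • (1 : MA) + (T 1 * T (-1) + T (-1) * T 1 + T (-1) * T (-1) * dl : ℤ[T;T⁻¹]) • EE0 := by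
        simp only [add_mul, mul_add, smul_mul_assoc, mul_smul_comm, one_mul, mul_one, EE0_sq]
        module
    _ = _ := by 
      rw [h2, T11]

theorem WR_hh' : WR (invL hh) = (T (-2) : ℤ[T;T⁻¹]) • (1 : MA) + (1 - T 4 : ℤ[T;T⁻¹]) • EE0 := by
  have h : WR (invL hh) = ((T (-1) : ℤ[T;T⁻¹]) • (1 : MA) + (T 1 : ℤ[T;T⁻¹]) • EE0) * 
      ((T (-1) : ℤ[T;T⁻¹]) • (1 : MA) + (T 1 : ℤ[T;T⁻¹]) • EE0) := by
    have e : invL hh = [(false, 0), (false, 0)] := rfl
    rw [e]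
    unfold WR WM
    simp only [List.map_cons, List.map_nil, List.prod_cons, List.prod_nil, mul_one, Bool.false_eq_true, if_false, SM_eq]
  rw [h]
  have h2 : (T (-1) : ℤ[T;T⁻¹]) * T 1 + T 1 * T (-1) + T 1 * T 1 * dl = 1 - T 4 := by
    rw [T1m, Tm1, T11, c_neg]
  calc _ = (T (-1) * T (-1) : ℤ[T;T⁻¹]) • (1 : MA) + (T (-1) * T 1 + T 1 * T (-1) + T 1 * T 1 * dl : ℤ[T;T⁻¹]) • EE0 := by
        simp only [add_mul, mul_add, smul_mul_assoc, mul_smul_comm, one_mul, mul_one, EE0_sq]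
        module
    _ = _ := by 
      rw [h2, Tmm]

theorem WR_append (w w' : List (Bool × ℕ)) : WR (w ++ w') = WR w * WR w' := WM_append _ _ _ _ _

theorem WR_pw (w : List (Bool × ℕ)) (n : ℕ) : WR (pw w n) = WR w ^ n := by
  induction n with
  | zero => rfl
  | succ n ih => rw [pw_succ', WR_append, ih, pow_succ]

/-- the parameter -/
noncomputable def xx (m : ℕ) : ℤ[T;T⁻¹] := T (-8 * m)

/-- the powers of `σ_1^2` -/
theorem WR_hh_pow (m : ℕ) : dl • WR (pw hh m) = (T (2 * m) : ℤ[T;T⁻¹]) • (dl • (1 : MA) + (xx m - 1) • EE0) := by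
  rw [WR_pw]
  induction m with
  | zero => simp [xx]
  | succ m ih =>
    rw [pow_succ', ← mul_smul_comm, ih, WR_hh]
    have e1 : (T (2 * ((m + 1 : ℕ) : ℤ)) : ℤ[T;T⁻¹]) = T 2 * T (2 * m) := by
      rw [← T_add]; congr 1; push_cast; ring
    have e2 : xx (m + 1) = T (-8) * xx m := by
      unfold xx
      rw [← T_add]; congr 1; push_cast; ring
    have e3 : (T 2 : ℤ[T;T⁻¹]) + (1 - T (-4)) * dl = T 2 * T (-8) := by
      rw [dl_def]
      simp only [sub_mul, mul_sub, mul_neg, ← T_add, one_mul]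
      norm_num
    have e4 : (T 2 : ℤ[T;T⁻¹]) * (xx m - 1) + (1 - T (-4)) * dl + (1 - T (-4)) * (xx m - 1) * dl = 
        T 2 * (T (-8) * xx m - 1) := by
      linear_combination (xx m) * e3
    rw [e1, e2]
    calc _ = (T (2 * m) : ℤ[T;T⁻¹]) • ((T 2 * dl) • (1 : MA) + 
          (T 2 * (xx m - 1) + (1 - T (-4)) * dl + (1 - T (-4)) * (xx m - 1) * dl) • EE0) := by
          simp only [add_mul, mul_add, smul_mul_assoc, mul_smul_comm, one_mul, mul_one, EE0_sq]
          module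
      _ = _ := by
        rw [e4]
        module

theorem WR_hh_pow' (m : ℕ) : (dl * xx m) • WR (invL (pw hh m)) = 
    (T (-(2 * m)) : ℤ[T;T⁻¹]) • ((dl * xx m) • (1 : MA) + (1 - xx m) • EE0) := by
  have hx : ∀ m : ℕ, xx m * T (8 * m) = 1 := by
    intro m
    unfold xx
    rw [← T_add, ← T_zero]
    congr 1
    ring
  have key : dl • WR (invL (pw hh m)) = (T (-(2 * m)) : ℤ[T;T⁻¹]) • (dl • (1 : MA) + ((T (8 * m) : ℤ[T;T⁻¹]) - 1) • EE0) := by
    rw [invL_pw, WR_pw]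
    induction m with
    | zero => simp
    | succ m ih =>
      rw [pow_succ', ← mul_smul_comm, ih, WR_hh']
      have e1 : (T (-(2 * ((m + 1 : ℕ) : ℤ))) : ℤ[T;T⁻¹]) = T (-2) * T (-(2 * m)) := by
        rw [← T_add]; congr 1; push_cast; ring
      have e2 : (T (8 * ((m + 1 : ℕ) : ℤ)) : ℤ[T;T⁻¹]) = T 8 * T (8 * m) := by
        rw [← T_add]; congr 1; push_cast; ring
      have e3 : (T (-2) : ℤ[T;T⁻¹]) + (1 - T 4) * dl = T (-2) * T 8 := by
        rw [dl_def]
        simp only [sub_mul, mul_sub, mul_neg, ← T_add, one_mul]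
        norm_num
      have e4 : (T (-2) : ℤ[T;T⁻¹]) * (T (8 * m) - 1) + (1 - T 4) * dl + (1 - T 4) * (T (8 * m) - 1) * dl = 
          T (-2) * (T 8 * T (8 * m) - 1) := by
        linear_combination (T (8 * m) : ℤ[T;T⁻¹]) * e3
      rw [e1, e2]
      calc _ = (T (-(2 * m)) : ℤ[T;T⁻¹]) • ((T (-2) * dl) • (1 : MA) + 
            (T (-2) * (T (8 * m) - 1) + (1 - T 4) * dl + (1 - T 4) * (T (8 * m) - 1) * dl) • EE0) := by
            simp only [add_mul, mul_add, smul_mul_assoc, mul_smul_comm, one_mul, mul_one, EE0_sq]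
            module
        _ = _ := by
          rw [e4]
          module
  have h1 : xx m * (T (8 * m) - 1) = 1 - xx m := by rw [mul_sub, hx, mul_one]
  rw [mul_comm dl, mul_smul, key, ← h1]
  module

/-! ### polynomial families -/

/-- the entries are polynomials in the parameter, up to denominators -/
def IsPol (M : ℕ → MA) : Prop :=
  ∃ (D E : ℕ) (Q : Matrix (Fin 14) (Fin 14) (Polynomial ℤ[T;T⁻¹])), 
    ∀ m, (dl ^ D * xx m ^ E) • M m = Q.map (Polynomial.evalRingHom (xx m))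

theorem IsPol.const (M : MA) : IsPol (fun _ => M) := 
  ⟨0, 0, M.map Polynomial.C, fun m => by ext i j; simp⟩

theorem IsPol.mul {M N : ℕ → MA} (hM : IsPol M) (hN : IsPol N) : IsPol (fun m => M m * N m) := by
  obtain ⟨D, E, Q, hQ⟩ := hM
  obtain ⟨D', E', Q', hQ'⟩ := hN
  refine ⟨D + D', E + E', Q * Q', fun m => ?_⟩
  rw [Matrix.map_mul, ← hQ, ← hQ', smul_mul_smul_comm]
  congr 1
  rw [pow_add, pow_add]
  ring

/-- commutators -/
noncomputable def cmR (X Y : MA × MA) : MA × MA := (X.1 * Y.1 * X.2 * Y.2, Y.1 * X.1 * Y.2 * X.2)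

/-- polynomial families of pairs -/
def IsPol2 (P : ℕ → MA × MA) : Prop := IsPol (fun m => (P m).1) ∧ IsPol (fun m => (P m).2)

theorem IsPol2.cm {P Q : ℕ → MA × MA} (hP : IsPol2 P) (hQ : IsPol2 Q) : IsPol2 (fun m => cmR (P m) (Q m)) := 
  ⟨((hP.1.mul hQ.1).mul hP.2).mul hQ.2, ((hQ.1.mul hP.1).mul hQ.2).mul hP.2⟩

/-- the matrices of a word and its inverse -/
noncomputable def MPR (w : List (Bool × ℕ)) : MA × MA := (WR w, WR (invL w))

theorem MPR_com (x y : List (Bool × ℕ)) : MPR (com x y) = cmR (MPR x) (MPR y) := by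
  unfold MPR cmR
  rw [invL_com]
  unfold com
  simp only [WR_append]

/-- the rescaled powers of `σ_1^2` -/
noncomputable def Hh (m : ℕ) : MA × MA := 
  ((T (-(2 * m)) : ℤ[T;T⁻¹]) • WR (pw hh m), (T (2 * m) : ℤ[T;T⁻¹]) • WR (invL (pw hh m)))

theorem cmR_Hh (m : ℕ) (X : MA × MA) : cmR (MPR (pw hh m)) X = cmR (Hh m) X := by
  have h1 : (T (-(2 * m)) : ℤ[T;T⁻¹]) * T (2 * m) = 1 := by rw [← T_add, neg_add_cancel, T_zero]
  have h2 : (T (2 * m) : ℤ[T;T⁻¹]) * T (-(2 * m)) = 1 := by rw [mul_comm, h1]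
  unfold cmR MPR Hh
  simp only [smul_mul_assoc, mul_smul_comm, smul_smul, h1, h2, one_smul]

theorem isPol_Hh : IsPol2 Hh := by
  have h1 : ∀ m : ℕ, (T (-(2 * m)) : ℤ[T;T⁻¹]) * T (2 * m) = 1 := by
    intro m; rw [← T_add, neg_add_cancel, T_zero]
  have h2 : ∀ m : ℕ, (T (2 * m) : ℤ[T;T⁻¹]) * T (-(2 * m)) = 1 := by intro m; rw [mul_comm, h1]
  constructor
  · refine ⟨1, 0, (Polynomial.C dl) • 1 + (Polynomial.X - 1 : Polynomial ℤ[T;T⁻¹]) • EE0.map Polynomial.C, fun m => ?_⟩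
    have h3 := WR_hh_pow m
    show (dl ^ 1 * xx m ^ 0) • (T (-(2 * m)) : ℤ[T;T⁻¹]) • WR (pw hh m) = _
    rw [pow_one, pow_zero, mul_one, smul_comm, h3, smul_smul, h1, one_smul]
    ext i j : 2
    by_cases hij : i = j
    · subst hij; simp
    · simp [Matrix.one_apply_ne hij]
  · refine ⟨1, 1, (Polynomial.C dl * Polynomial.X) • 1 + (1 - Polynomial.X : Polynomial ℤ[T;T⁻¹]) • EE0.map Polynomial.C, fun m => ?_⟩
    have h3 := WR_hh_pow' m
    show (dl ^ 1 * xx m ^ 1) • (T (2 * m) : ℤ[T;T⁻¹]) • WR (invL (pw hh m)) = _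
    rw [pow_one, pow_one, smul_comm, h3, smul_smul, h2, one_smul]
    ext i j : 2
    by_cases hij : i = j
    · subst hij; simp
    · simp [Matrix.one_apply_ne hij]

theorem Wn_succ (m k n : ℕ) : Wn m k (n + 1) = com (pw hh m) (com zz (Wn m k n)) := rfl

theorem MPR_succ (m k n : ℕ) : MPR (Wn m k (n + 1)) = cmR (Hh m) (cmR (MPR zz) (MPR (Wn m k n))) := by
  rw [Wn_succ, MPR_com, MPR_com, cmR_Hh]

theorem isPol_W0 (P : ℕ → MA × MA) (Q : MA × MA) (h : ∀ m, P m = Q) : IsPol2 P := by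
  have : P = fun _ => Q := funext h
  rw [this]
  exact ⟨IsPol.const Q.1, IsPol.const Q.2⟩

theorem isPol_Wn (k n : ℕ) : IsPol2 (fun m => MPR (Wn m k n)) := by
  induction n with
  | zero => exact isPol_W0 _ (MPR (Wn 0 k 0)) (fun _ => rfl)
  | succ n ih =>
    have h : (fun m => MPR (Wn m k (n + 1))) = fun m => cmR (Hh m) (cmR (MPR zz) (MPR (Wn m k n))) := by
      funext m
      exact MPR_succ m k n
    rw [h]
    exact isPol_Hh.cm (IsPol2.cm (isPol_W0 _ (MPR zz) (fun _ => rfl)) ih)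

/-! ### the closures -/

/-- the coefficients of the closure functional -/
noncomputable def kap : Fin 14 → ℤ[T;T⁻¹] := fun j => 
  tau dl (run (T 1) (T (-1)) dl tl (ofF (Pi.single j 1)))

theorem tau_add (d : ℤ[T;T⁻¹]) (f g : Fin 14 → ℤ[T;T⁻¹]) : tau d (ofF (f + g)) = tau d (ofF f) + tau d (ofF g) := by
  simp only [tau, ofF, Pi.add_apply]
  ring

theorem tau_smul (d r : ℤ[T;T⁻¹]) (f : Fin 14 → ℤ[T;T⁻¹]) : tau d (ofF (r • f)) = r * tau d (ofF f) := by
  simp only [tau, ofF, Pi.smul_apply, smul_eq_mul]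
  ring

/-- the closure functional as a linear map -/
noncomputable def tauL : (Fin 14 → ℤ[T;T⁻¹]) →ₗ[ℤ[T;T⁻¹]] ℤ[T;T⁻¹] where
  toFun f := tau dl (ofF (Matrix.vecMul f (WR tl)))
  map_add' f g := by rw [Matrix.add_vecMul, tau_add]
  map_smul' r f := by rw [Matrix.smul_vecMul, tau_smul]; rfl

theorem tauL_eq (v : V ℤ[T;T⁻¹]) : tau dl (run (T 1) (T (-1)) dl tl v) = tauL (get v) := by
  show _ = tau dl (ofF (Matrix.vecMul (get v) (WR tl)))
  unfold WR
  rw [← get_run, ofF_get]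

theorem F_eq (m k n : ℕ) : dl * (draw (braidClosure 4) (Wn m k n ++ tl)).close.bracket = 
    ∑ j, (MPR (Wn m k n)).1 0 j * kap j := by
  have hWV : ∀ x ∈ Wn m k n ++ tl, x.2 + 1 < 4 := by
    intro x hx
    rcases List.mem_append.1 hx with hx | hx
    · exact (good_Wn m k n).lt x hx
    · exact tl_lt x hx
  have hrun : ∀ (u u' d : ℤ[T;T⁻¹]) (w w' : List (Bool × ℕ)) (v : V ℤ[T;T⁻¹]), 
      run u u' d (w ++ w') v = run u u' d w' (run u u' d w v) := by
    intro u u' d w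
    induction w with
    | nil => intro w' v; rfl
    | cons x w ih => intro w' v; exact ih w' _
  rw [bracket_clo _ hWV, hrun, tauL_eq]
  have h1 : get (run (T 1) (T (-1)) dl (Wn m k n) (one ℤ[T;T⁻¹])) = (MPR (Wn m k n)).1 0 := by
    have h2 : one ℤ[T;T⁻¹] = ofF (Pi.single 0 1) := rfl
    rw [h2, ← WM_row]
    rfl
  rw [h1, LinearMap.pi_apply_eq_sum_univ]
  refine Finset.sum_congr rfl fun j _ => ?_
  rw [smul_eq_mul]
  congr 1
  unfold kap
  rw [tauL_eq, get_ofF]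
  congr 1
  funext l
  rw [Pi.single_apply]
  simp only [eq_comm]

theorem fPoly_iff (m k n : ℕ) : (draw (braidClosure 4) (Wn m k n ++ tl)).close.fPoly = 1 ↔ 
    dl * (draw (braidClosure 4) (Wn m k n ++ tl)).close.bracket = dl * (-T 9) := by
  have h2 : (T 9 : ℤ[T;T⁻¹]) * T (-9) = 1 := by
    rw [← T_add]
    norm_num
  rw [fPoly_eq, owr_clo _ (good_Wn m k n).lt (cost_Wn m k n) (good_Wn m k n).pure, un3]
  constructor
  · intro h
    congr 1
    calc (draw (braidClosure 4) (Wn m k n ++ tl)).close.bracket 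
        = -(T 9 * (-T (-9) * (draw (braidClosure 4) (Wn m k n ++ tl)).close.bracket)) := by
          rw [← mul_assoc, mul_neg, h2]; ring
      _ = _ := by rw [h, mul_one]
  · intro h
    rw [mul_left_cancel₀ dl_ne h, neg_mul_neg, mul_comm, h2]

theorem xx_inj : Function.Injective xx := by
  intro a b h
  unfold xx at h
  have h1 : (T (-8 * (a : ℤ)) : ℤ[T;T⁻¹]) = T (-8 * (b : ℤ)) := h
  have h2 := congrArg (fun f : ℤ[T;T⁻¹] => f.coeff (-8 * (a : ℤ))) h1
  simp only [LaurentPolynomial.T, AddMonoidAlgebra.coeff_single, Finsupp.single_apply] at h2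
  by_contra hne
  have h3 : ¬ (-8 * (b : ℤ) = -8 * (a : ℤ)) := by omega
  rw [if_neg h3] at h2
  simp at h2

theorem xx_ne (m : ℕ) : xx m ≠ 0 := by
  intro h
  have : xx m * T (8 * m) = 1 := by
    unfold xx
    rw [← T_add, ← T_zero]
    congr 1
    ring
  rw [h, zero_mul] at this
  exact zero_ne_one this

/-- **For almost all exponents the closure has a non-trivial polynomial.** -/
theorem finite_trivial (k n : ℕ) : 
    {m : ℕ | (draw (braidClosure 4) (Wn m k n ++ tl)).close.fPoly = 1}.Finite := by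
  obtain ⟨D, E, Q, hQ⟩ := (isPol_Wn k n).1
  set P : Polynomial ℤ[T;T⁻¹] := ∑ j, Q 0 j * Polynomial.C (kap j) - 
    Polynomial.C (dl ^ D * (dl * (-T 9))) * Polynomial.X ^ E with hP
  have hev : ∀ m, P.eval (xx m) = dl ^ D * xx m ^ E * 
      (dl * (draw (braidClosure 4) (Wn m k n ++ tl)).close.bracket - dl * (-T 9)) := by
    intro m
    have h1 : ∀ j, (Q 0 j).eval (xx m) = dl ^ D * xx m ^ E * (MPR (Wn m k n)).1 0 j := by
      intro j
      have h2 := congrFun (congrFun (hQ m) 0) j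
      simp only [Matrix.smul_apply, smul_eq_mul, Matrix.map_apply, Polynomial.coe_evalRingHom] at h2
      exact h2.symm
    rw [hP, Polynomial.eval_sub, Polynomial.eval_finsetSum, F_eq, mul_sub, Finset.mul_sum]
    congr 1
    · refine Finset.sum_congr rfl fun j _ => ?_
      rw [Polynomial.eval_mul, Polynomial.eval_C, h1, mul_assoc]
    · rw [Polynomial.eval_mul, Polynomial.eval_C, Polynomial.eval_pow, Polynomial.eval_X]
      ring
  have hne : P ≠ 0 := by
    intro h0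
    have h1 := hev 1
    rw [h0, Polynomial.eval_zero] at h1
    have h2 : dl ^ D * xx 1 ^ E ≠ 0 := mul_ne_zero (pow_ne_zero _ dl_ne) (pow_ne_zero _ (xx_ne 1))
    have h3 := (mul_eq_zero.1 h1.symm).resolve_left h2
    exact fPoly_ne k n ((fPoly_iff 1 k n).2 (sub_eq_zero.1 h3))
  refine Set.Finite.subset ((P.roots.toFinset.finite_toSet).preimage (xx_inj.injOn)) ?_
  intro m hm
  have h1 := (fPoly_iff m k n).1 hm
  rw [Set.mem_preimage, Finset.mem_coe, Multiset.mem_toFinset, Polynomial.mem_roots hne]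
  show P.eval (xx m) = 0
  rw [hev, h1, sub_self, mul_zero]

end Pool.Agent.U963.JN
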