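import Pool.Agent.U963.JN.Num
import Pool.Agent.Y463.SK.Bridge

/-!
# The braid words
-/

set_option autoImplicit false

namespace Pool.Agent.U963.JN

open Pool.Agent.Y463.SK

/-- positive braid words -/
def pos (w : List ℕ) : List (Bool × ℕ) := w.map (fun i => (true, i))

/-- the fourth power of this word is central modulo 2 -/
def x2 : List ℕ := [0, 2, 0, 1, 1, 0, 2, 0, 2, 1, 1, 1, 0, 2, 0, 2, 1, 1, 0, 2, 0, 1, 2, 1]

/-- the third power of this word is central modulo 3 -/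
def x3 : List ℕ := [0, 0, 1, 1, 1, 0, 2, 0, 1, 2, 1, 1, 0, 2, 0, 2, 1, 1, 0, 2]

/-- the fifth power of this word is central modulo 5 -/
def x5 : List ℕ := [0, 1, 1, 0, 2, 0, 1, 1, 0, 2, 0, 1, 2, 1, 0, 0, 1, 2, 1, 1, 0, 2, 0, 1, 2, 1, 1, 0, 2, 0, 2, 1, 1, 1, 0, 2]

/-- the positive braid words `β_2, β_3, β_5` -/
def y2 : List ℕ := x2
def y3 : List ℕ := x3 ++ x3 ++ x3
def y5 : List ℕ := x5 ++ x5 ++ x5 ++ x5 ++ x5

/-- the commutator -/
def com (x y : List (Bool × ℕ)) : List (Bool × ℕ) := x ++ y ++ invL x ++ invL y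

/-- `σ_1^2 σ_3^{-2}` -/
def gam : List (Bool × ℕ) := [(true, 0), (true, 0), (false, 2), (false, 2)]

def g2 : List (Bool × ℕ) := com (pos y2) gam
def g3 : List (Bool × ℕ) := com (pos y3) gam
def g5 : List (Bool × ℕ) := com (pos y5) gam

/-- `σ_1^2` -/
def hh : List (Bool × ℕ) := [(true, 0), (true, 0)]

/-- `(σ_1 σ_2)^6` -/
def zp : List ℕ := [0, 1, 0, 1, 0, 1, 0, 1, 0, 1, 0, 1]
def zz : List (Bool × ℕ) := pos zp

end Pool.Agent.U963.JN
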